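import Mathlib

/-! Divisibility of Hankel determinants of integer sequences annihilated by a primitive
polynomial. -/

set_option autoImplicit false

open Polynomial Matrix Finset

namespace Pool.Agent.R330.Lam

theorem exists_leftInv {ι κ : Type*} [Fintype ι] [Fintype κ]
    (A : (ι → ℤ) →ₗ[ℤ] (κ → ℤ)) (hinj : Function.Injective A)
    (hsat : ∀ (a : ℤ) (z : κ → ℤ) (b : ι → ℤ), a ≠ 0 → a • z = A b → ∃ b', z = A b') :
    ∃ L : (κ → ℤ) →ₗ[ℤ] (ι → ℤ), L ∘ₗ A = LinearMap.id := by
  have htf : Module.IsTorsionFree ℤ ((κ → ℤ) ⧸ LinearMap.range A) := by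
    constructor
    intro a ha x y hxy
    have ha0 : a ≠ 0 := ha.ne_zero
    obtain ⟨x, rfl⟩ := Submodule.mkQ_surjective _ x
    obtain ⟨y, rfl⟩ := Submodule.mkQ_surjective _ y
    simp only [] at hxy
    have h1 : a • (x - y) ∈ LinearMap.range A := by
      rw [← Submodule.Quotient.mk_eq_zero, Submodule.Quotient.mk_smul, Submodule.Quotient.mk_sub,
        smul_sub]
      exact sub_eq_zero.mpr hxy
    obtain ⟨b, hb⟩ := h1
    obtain ⟨b', hb'⟩ := hsat a (x - y) b ha0 hb.symm
    rw [← sub_eq_zero, ← map_sub]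
    rw [Submodule.mkQ_apply, Submodule.Quotient.mk_eq_zero]
    exact ⟨b', hb'.symm⟩
  have hfree : Module.Free ℤ ((κ → ℤ) ⧸ LinearMap.range A) :=
    Module.free_of_finite_type_torsion_free'
  have hex := LinearMap.exact_map_mkQ_range A
  have h := (hex.split_tfae').out 0 1
  have h2 := h.mp ⟨hinj, by
    obtain ⟨l, hl⟩ := Module.projective_lifting_property (LinearMap.range A).mkQ
      (LinearMap.id : ((κ → ℤ) ⧸ LinearMap.range A) →ₗ[ℤ] _) (Submodule.mkQ_surjective _)
    exact ⟨l, hl⟩⟩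
  obtain ⟨-, l, hl⟩ := h2
  exact ⟨l, hl⟩

/-- position of an index -/
def pos (N r : ℕ) : Fin N ⊕ Fin r → ℕ := Sum.elim (fun i => (i : ℕ)) (fun j => N + (j : ℕ))

theorem pos_lt {N r : ℕ} (t : Fin N ⊕ Fin r) : pos N r t < N + r := by
  rcases t with t | t <;> simp [pos] <;> omega

theorem pos_surj {N r k : ℕ} (hk : k < N + r) : ∃ t : Fin N ⊕ Fin r, pos N r t = k := by
  by_cases h : k < N
  · exact ⟨Sum.inl ⟨k, h⟩, rfl⟩
  · refine ⟨Sum.inr ⟨k - N, by omega⟩, ?_⟩
    simp [pos]
    omega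

theorem sum_pos {N r : ℕ} (f : ℕ → ℤ) :
    ∑ t : Fin N ⊕ Fin r, f (pos N r t) = ∑ k ∈ range (N + r), f k := by
  rw [Fintype.sum_sum_type, Finset.sum_range_add]
  simp only [pos, Sum.elim_inl, Sum.elim_inr]
  rw [Finset.sum_range, Finset.sum_range]

/-- the rows are the shifted coefficient vectors -/
noncomputable def V (N r : ℕ) (P : ℤ[X]) : Matrix (Fin N) (Fin N ⊕ Fin r) ℤ :=
  Matrix.of fun i t => (P * X ^ (i : ℕ)).coeff (pos N r t)

/-- polynomial of a vector -/
noncomputable def B {N : ℕ} (b : Fin N → ℤ) : ℤ[X] := ∑ i : Fin N, C (b i) * X ^ (i : ℕ)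

theorem B_coeff {N : ℕ} (b : Fin N → ℤ) (i : Fin N) : (B b).coeff i = b i := by
  unfold B
  rw [finsetSum_coeff, Finset.sum_eq_single i]
  · simp
  · intro j _ hj
    rw [coeff_C_mul_X_pow]
    rw [if_neg]
    intro h
    exact hj (Fin.ext h.symm)
  · simp

theorem B_natDegree {N : ℕ} (b : Fin N → ℤ) : (B b).degree < N := by
  rw [← mem_degreeLT]
  unfold B
  refine Submodule.sum_mem _ fun i _ => ?_
  rw [mem_degreeLT]
  exact lt_of_le_of_lt (degree_C_mul_X_pow_le _ _) (by exact_mod_cast i.2)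

theorem vecMul_V {N r : ℕ} (P : ℤ[X]) (b : Fin N → ℤ) (t : Fin N ⊕ Fin r) :
    (b ᵥ* V N r P) t = (P * B b).coeff (pos N r t) := by
  unfold B
  rw [Finset.mul_sum, finsetSum_coeff]
  simp only [Matrix.vecMul, dotProduct, V, Matrix.of_apply]
  apply Finset.sum_congr rfl
  intro i _
  rw [show P * (C (b i) * X ^ (i : ℕ)) = C (b i) * (P * X ^ (i : ℕ)) by ring, coeff_C_mul]

theorem deg_lt {N r : ℕ} {P : ℤ[X]} (hP : P ≠ 0) (hdeg : P.natDegree ≤ r) (b : Fin N → ℤ) :
    (P * B b).degree < ((N + r : ℕ) : WithBot ℕ) := by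
  rw [degree_mul]
  have h1 := B_natDegree b
  have h2 : P.degree ≤ (r : WithBot ℕ) := degree_le_of_natDegree_le hdeg
  rcases eq_or_ne (B b) 0 with h | h
  · rw [h]
    simp
  · rw [degree_eq_natDegree hP, degree_eq_natDegree h] at *
    have h1' : (B b).natDegree < N := by exact_mod_cast h1
    have : P.natDegree + (B b).natDegree < N + r := by omega
    exact_mod_cast this

theorem exists_right (N r : ℕ) (P : ℤ[X]) (hP : P.IsPrimitive) (hdeg : P.natDegree ≤ r) :
    ∃ U : Matrix (Fin N ⊕ Fin r) (Fin N) ℤ, V N r P * U = 1 := by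
  have hP0 : P ≠ 0 := hP.ne_zero
  have hzero : ∀ (b : Fin N → ℤ), (∀ t : Fin N ⊕ Fin r, (P * B b).coeff (pos N r t) = 0) →
      b = 0 := by
    intro b hb
    have h0 : P * B b = 0 := by
      ext k
      rw [coeff_zero]
      by_cases hk : k < N + r
      · obtain ⟨t, ht⟩ := pos_surj hk
        rw [← ht]
        exact hb t
      · apply coeff_eq_zero_of_degree_lt
        refine lt_of_lt_of_le (deg_lt hP0 hdeg b) ?_
        exact_mod_cast not_lt.mp hk
    have h1 : B b = 0 := (mul_eq_zero.mp h0).resolve_left hP0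
    ext i
    rw [← B_coeff b i, h1]
    simp
  obtain ⟨L, hL⟩ := exists_leftInv (Matrix.vecMulLinear (V N r P)) (by
    rw [injective_iff_map_eq_zero]
    intro b hb
    apply hzero
    intro t
    rw [← vecMul_V]
    exact congrFun hb t) (by
    intro a z b ha hz
    have h1 : C a ∣ P * B b := by
      rw [C_dvd_iff_dvd_coeff]
      intro k
      by_cases hk : k < N + r
      · obtain ⟨t, ht⟩ := pos_surj hk
        rw [← ht, ← vecMul_V]
        have := congrFun hz t
        simp only [Matrix.vecMulLinear_apply] at this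
        rw [← this]
        exact ⟨z t, by simp⟩
      · rw [coeff_eq_zero_of_degree_lt]
        · exact dvd_zero _
        · refine lt_of_lt_of_le (deg_lt hP0 hdeg b) ?_
          exact_mod_cast not_lt.mp hk
    have h2 : a ∣ (B b).content := by
      rw [← dvd_content_iff_C_dvd, content_mul, hP.content_eq_one, one_mul] at h1
      exact h1
    rw [dvd_content_iff_C_dvd, C_dvd_iff_dvd_coeff] at h2
    choose b' hb' using fun i : Fin N => h2 (i : ℕ)
    refine ⟨b', ?_⟩
    have h3 : b = a • b' := by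
      ext i
      rw [← B_coeff b i, hb' i]
      simp
    rw [h3, map_smul] at hz
    exact smul_right_injective _ ha hz)
  refine ⟨Matrix.of fun t i => L (Pi.single t 1) i, ?_⟩
  ext i i'
  have h1 : (V N r P * Matrix.of fun t i => L (Pi.single t 1) i) i i' = L (V N r P i) i' := by
    rw [Matrix.mul_apply]
    have h2 : V N r P i = ∑ t, V N r P i t • (Pi.single t (1 : ℤ) : Fin N ⊕ Fin r → ℤ) := by
      ext t
      simp [Finset.sum_apply, Pi.single_apply]
    conv_rhs => rw [h2, map_sum]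
    simp only [map_smul, Finset.sum_apply, Pi.smul_apply, smul_eq_mul, Matrix.of_apply]
  rw [h1]
  have h3 : V N r P i = Matrix.vecMulLinear (V N r P) (Pi.single i 1) := by
    ext t
    simp
  rw [h3]
  have h4 := LinearMap.congr_fun hL (Pi.single i 1)
  simp only [LinearMap.comp_apply, LinearMap.id_apply] at h4
  rw [h4]
  simp [Matrix.one_apply, Pi.single_apply, eq_comm]

/-- **Divisibility.** -/
theorem hankel_dvd (N r : ℕ) (P : ℤ[X]) (hP : P.IsPrimitive) (hdeg : P.natDegree ≤ r)
    (x : ℕ → ℤ) (hann : ∀ i, i < N → ∀ k, k < r → ∑ j ∈ range (r + 1), P.coeff j * x (i + k + j) = 0) :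
    (P.coeff 0) ^ N ∣ (Matrix.of fun i j : Fin r => x (N + i + j)).det := by
  obtain ⟨U, hU⟩ := exists_right N r P hP hdeg
  set Cm : Matrix (Fin N ⊕ Fin r) (Fin r) ℤ := Matrix.of fun t k => x (pos N r t + k) with hCm
  have hVC : V N r P * Cm = 0 := by
    ext i k
    rw [Matrix.mul_apply]
    simp only [V, hCm, Matrix.of_apply, Matrix.zero_apply]
    refine (sum_pos (N := N) (r := r) (fun d => (P * X ^ (i : ℕ)).coeff d * x (d + k))).trans ?_
    have h1 : ∀ d, (P * X ^ (i : ℕ)).coeff d * x (d + k) =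
        if (i : ℕ) ≤ d then P.coeff (d - i) * x (d + k) else 0 := by
      intro d
      rw [coeff_mul_X_pow']
      split_ifs <;> simp
    rw [Finset.sum_congr rfl fun d _ => h1 d]
    have h2 : N + r = (i : ℕ) + (r + 1) + (N - 1 - i) := by
      have := i.2
      omega
    rw [h2, Finset.sum_range_add, Finset.sum_range_add]
    have h3 : ∑ d ∈ range (i : ℕ), (if (i : ℕ) ≤ d then P.coeff (d - i) * x (d + k) else 0) = 0 := by
      apply Finset.sum_eq_zero
      intro d hd
      rw [mem_range] at hd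
      rw [if_neg (by omega)]
    have h4 : ∑ d ∈ range (N - 1 - i), (if (i : ℕ) ≤ (i : ℕ) + (r + 1) + d then
        P.coeff ((i : ℕ) + (r + 1) + d - i) * x ((i : ℕ) + (r + 1) + d + k) else 0) = 0 := by
      apply Finset.sum_eq_zero
      intro d hd
      rw [if_pos (by omega), coeff_eq_zero_of_natDegree_lt, zero_mul]
      omega
    rw [h3, h4, zero_add, add_zero, ← hann i i.2 k k.2]
    apply Finset.sum_congr rfl
    intro d _
    rw [if_pos (by omega)]
    congr 2
    · congr 1
      omega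
    · omega
  have hmul : Matrix.fromRows (V N r P) (Matrix.fromCols 0 1 : Matrix (Fin r) (Fin N ⊕ Fin r) ℤ) *
      Matrix.fromCols U Cm =
      Matrix.fromBlocks 1 0 ((Matrix.fromCols 0 1 : Matrix (Fin r) (Fin N ⊕ Fin r) ℤ) * U)
        ((Matrix.fromCols 0 1 : Matrix (Fin r) (Fin N ⊕ Fin r) ℤ) * Cm) := by
    rw [Matrix.fromRows_mul_fromCols, hU, hVC]
  have hCbot : (Matrix.fromCols 0 1 : Matrix (Fin r) (Fin N ⊕ Fin r) ℤ) * Cm =
      Matrix.of fun i j : Fin r => x (N + i + j) := by
    ext i j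
    rw [Matrix.mul_apply, Fintype.sum_sum_type]
    simp [Matrix.one_apply, hCm, pos]
  have hVsplit : (Matrix.fromRows (V N r P) (Matrix.fromCols 0 1) :
      Matrix (Fin N ⊕ Fin r) (Fin N ⊕ Fin r) ℤ) =
      Matrix.fromBlocks (Matrix.of fun i j : Fin N => (P * X ^ (i : ℕ)).coeff j)
        (Matrix.of fun (i : Fin N) (j : Fin r) => (P * X ^ (i : ℕ)).coeff (N + j)) 0 1 := by
    ext i j
    rcases i with i | i <;> rcases j with j | j <;> simp [V, pos]
  have hdet := congrArg Matrix.det hmul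
  rw [Matrix.det_mul, Matrix.det_fromBlocks_zero₁₂, hCbot, hVsplit,
    Matrix.det_fromBlocks_zero₂₁, Matrix.det_one, Matrix.det_one, one_mul, mul_one] at hdet
  have htri : (Matrix.of fun i j : Fin N => (P * X ^ (i : ℕ)).coeff j).det = (P.coeff 0) ^ N := by
    rw [Matrix.det_of_isUpperTriangular]
    · simp [coeff_mul_X_pow']
    · intro i j hij
      simp only [id] at hij
      simp only [Matrix.of_apply, coeff_mul_X_pow']
      rw [if_neg]
      simpa using hij
  rw [htri] at hdet
  exact ⟨_, hdet.symm⟩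

end Pool.Agent.R330.Lam
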