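import Mathlib
import Pool.Agent.R330.Lam.A

/-! Size of Hankel determinants, and extension of recurrent sequences. -/

set_option autoImplicit false

open Polynomial Matrix Finset

namespace Pool.Agent.R330.Lam

theorem hankel_ne_zero (N r : ℕ) (P : ℤ[X]) (h0 : P.coeff 0 ≠ 0)
    (x : ℕ → ℤ) (hann : ∀ i, i < N → ∀ k, k < r → ∑ j ∈ range (r + 1), P.coeff j * x (i + k + j) = 0)
    (hind : ∀ b : Fin r → ℤ, (∀ t, t < N + r → ∑ k : Fin r, b k * x (t + k) = 0) → b = 0) :
    (Matrix.of fun i j : Fin r => x (N + i + j)).det ≠ 0 := by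
  intro hdet
  obtain ⟨b, hb0, hb⟩ := Matrix.exists_mulVec_eq_zero_iff.mpr hdet
  apply hb0
  apply hind
  have hz : ∀ i, i < N → ∑ j ∈ range (r + 1), P.coeff j * (∑ k : Fin r, b k * x (i + j + k)) = 0 := by
    intro i hi
    have h1 : ∑ j ∈ range (r + 1), P.coeff j * (∑ k : Fin r, b k * x (i + j + k)) =
        ∑ k : Fin r, b k * ∑ j ∈ range (r + 1), P.coeff j * x (i + k + j) := by
      simp only [Finset.mul_sum]
      rw [Finset.sum_comm]
      apply Finset.sum_congr rfl
      intro k _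
      apply Finset.sum_congr rfl
      intro j _
      rw [show i + j + (k : ℕ) = i + k + j by ring]
      ring
    rw [h1]
    apply Finset.sum_eq_zero
    intro k _
    rw [hann i hi k k.2, mul_zero]
  have hlast : ∀ t, N ≤ t → t < N + r → ∑ k : Fin r, b k * x (t + k) = 0 := by
    intro t ht1 ht2
    have h2 := congrFun hb ⟨t - N, by omega⟩
    simp only [Matrix.mulVec, dotProduct, Matrix.of_apply, Pi.zero_apply] at h2
    rw [← h2]
    apply Finset.sum_congr rfl
    intro k _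
    rw [show N + (t - N) = t by omega]
    ring
  have hall : ∀ s, s ≤ N → ∀ t, N - s ≤ t → t < N + r → ∑ k : Fin r, b k * x (t + k) = 0 := by
    intro s
    induction s with
    | zero =>
      intro _ t ht1 ht2
      exact hlast t (by omega) ht2
    | succ s ih =>
      intro hs t ht1 ht2
      by_cases h : N - s ≤ t
      · exact ih (by omega) t h ht2
      · have ht : t < N := by omega
        have h3 := hz t ht
        rw [Finset.sum_range_succ'] at h3
        have h4 : ∑ j ∈ range r, P.coeff (j + 1) * (∑ k : Fin r, b k * x (t + (j + 1) + k)) = 0 := by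
          apply Finset.sum_eq_zero
          intro j hj
          rw [mem_range] at hj
          rw [ih (by omega) (t + (j + 1)) (by omega) (by omega), mul_zero]
        rw [h4, zero_add] at h3
        exact (mul_eq_zero.mp h3).resolve_left h0
  intro t ht
  exact hall N le_rfl t (by omega) ht

theorem det_bound {r : ℕ} (M : Matrix (Fin (r + 1)) (Fin (r + 1)) ℝ) (E F : ℝ)
    (hE : ∀ i, |M i 0| ≤ E) (hF : ∀ i (j : Fin r), |M i j.succ| ≤ F) :
    |M.det| ≤ (r + 1).factorial * (E * F ^ r) := by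
  rw [Matrix.det_apply]
  refine (Finset.abs_sum_le_sum_abs _ _).trans ?_
  have h1 : ∀ σ : Equiv.Perm (Fin (r + 1)), |Equiv.Perm.sign σ • ∏ i, M (σ i) i| ≤ E * F ^ r := by
    intro σ
    have h2 : |Equiv.Perm.sign σ • ∏ i, M (σ i) i| = ∏ i, |M (σ i) i| := by
      rw [← Finset.abs_prod]
      rcases Int.units_eq_one_or (Equiv.Perm.sign σ) with h | h <;> rw [h] <;> simp
    rw [h2, Fin.prod_univ_succ]
    have h3 : ∏ i : Fin r, |M (σ i.succ) i.succ| ≤ F ^ r := by
      calc ∏ i : Fin r, |M (σ i.succ) i.succ| ≤ ∏ _i : Fin r, F :=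
            Finset.prod_le_prod (fun _ _ => abs_nonneg _) (fun i _ => hF _ _)
        _ = F ^ r := by simp
    exact mul_le_mul (hE _) h3 (Finset.prod_nonneg fun _ _ => abs_nonneg _)
      ((abs_nonneg _).trans (hE (σ 0)))
  calc ∑ σ : Equiv.Perm (Fin (r + 1)), |Equiv.Perm.sign σ • ∏ i, M (σ i) i|
      ≤ ∑ _σ : Equiv.Perm (Fin (r + 1)), E * F ^ r := Finset.sum_le_sum fun σ _ => h1 σ
    _ = (r + 1).factorial * (E * F ^ r) := by
        rw [Finset.sum_const, Finset.card_univ, Fintype.card_perm, Fintype.card_fin, nsmul_eq_mul]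

theorem hankel_bound (N r : ℕ) (x : ℕ → ℤ) (ξ Y e E : ℝ)
    (hx : ∀ i, i ≤ N + 2 * r → |(x i : ℝ) - Y * ξ ^ i| ≤ e)
    (hE : ∀ i, i ≤ N + 2 * r → |(x i : ℝ)| ≤ E) :
    |(((Matrix.of fun i j : Fin (r + 1) => x (N + i + j)).det : ℤ) : ℝ)| ≤
      (r + 1).factorial * (E * ((1 + |ξ|) * e) ^ r) := by
  have h0 : (((Matrix.of fun i j : Fin (r + 1) => x (N + i + j)).det : ℤ) : ℝ) =
      (Matrix.of fun i j : Fin (r + 1) => (x (N + i + j) : ℝ)).det := by
    have h1 := RingHom.map_det (Int.castRingHom ℝ) (Matrix.of fun i j : Fin (r + 1) => x (N + i + j))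
    exact h1
  rw [h0]
  rw [Matrix.det_eq_of_forall_col_eq_smul_add_pred (B := Matrix.of fun i j : Fin (r + 1) =>
    Fin.cases (motive := fun _ => ℝ) (x (N + i + 0) : ℝ)
      (fun k : Fin r => (x (N + i + (k + 1)) : ℝ) - ξ * x (N + i + k)) j) (fun _ => ξ)]
  · apply det_bound
    · intro i
      simp only [Matrix.of_apply, Fin.cases_zero]
      apply hE
      have := i.2
      omega
    · intro i j
      simp only [Matrix.of_apply, Fin.cases_succ]
      have hi := i.2
      have hj := j.2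
      have h1 := hx (N + i + (j + 1)) (by omega)
      have h2 := hx (N + i + j) (by omega)
      have h3 : (x (N + i + (j + 1)) : ℝ) - ξ * x (N + i + j) =
          ((x (N + i + (j + 1)) : ℝ) - Y * ξ ^ ((N : ℕ) + i + (j + 1))) -
            ξ * ((x (N + i + j) : ℝ) - Y * ξ ^ ((N : ℕ) + i + j)) := by
        ring
      rw [h3]
      calc _ ≤ |(x (N + i + (j + 1)) : ℝ) - Y * ξ ^ ((N : ℕ) + i + (j + 1))| +
            |ξ * ((x (N + i + j) : ℝ) - Y * ξ ^ ((N : ℕ) + i + j))| := abs_sub _ _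
        _ ≤ e + |ξ| * e := by
            rw [abs_mul]
            exact add_le_add h1 (mul_le_mul_of_nonneg_left h2 (abs_nonneg _))
        _ = (1 + |ξ|) * e := by ring
  · intro i
    simp
  · intro i j
    simp [add_assoc]

/-- the sequence extended by one term to the left -/
def ex (r : ℕ) (p x : ℕ → ℤ) : ℕ → ℤ
  | 0 => -∑ j ∈ range r, p (j + 1) * x j
  | i + 1 => p 0 * x i

/-- One step of extension to the left. -/
theorem ext_step (r L : ℕ) (hr : r ≤ L) (p x : ℕ → ℤ)
    (hann : ∀ i, i + r ≤ L → ∑ j ∈ range (r + 1), p j * x (i + j) = 0)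
    (ξ Y e K : ℝ) (hξ : ξ ≠ 0) (he : 0 ≤ e) (hK : 1 ≤ K)
    (hp : ∀ j, j ≤ r → |(p j : ℝ)| ≤ K * |(p 0 : ℝ)|)
    (hx : ∀ i, i ≤ L → |(x i : ℝ) - Y * ξ ^ i| ≤ e) :
    ∃ y : ℕ → ℤ, (∀ i, i + r ≤ L + 1 → ∑ j ∈ range (r + 1), p j * y (i + j) = 0) ∧
      ∀ i, i ≤ L + 1 → |(y i : ℝ) - (p 0 * Y / ξ) * ξ ^ i| ≤
        ((r + 1) * K * (1 + 1 / |ξ|) * |(p 0 : ℝ)|) * e := by
  refine ⟨ex r p x, ?_, ?_⟩
  · intro i hi
    rcases i with _ | i
    · rw [Finset.sum_range_succ']
      have h1 : ∑ k ∈ range r, p (k + 1) * ex r p x (0 + (k + 1)) =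
          p 0 * ∑ k ∈ range r, p (k + 1) * x k := by
        rw [Finset.mul_sum]
        apply Finset.sum_congr rfl
        intro j _
        rw [zero_add, ex]
        ring
      rw [h1, add_zero, ex]
      ring
    · have h1 := hann i (by omega)
      calc ∑ j ∈ range (r + 1), p j * ex r p x (i + 1 + j) =
            ∑ j ∈ range (r + 1), p 0 * (p j * x (i + j)) := by
            apply Finset.sum_congr rfl
            intro j _
            rw [show i + 1 + j = (i + j) + 1 by ring, ex]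
            ring
        _ = 0 := by rw [← Finset.mul_sum, h1, mul_zero]
  · intro i hi
    have hξ0 : 0 < |ξ| := abs_pos.mpr hξ
    have hr0 : (0 : ℝ) ≤ r := Nat.cast_nonneg r
    have hfac : 1 ≤ ((r : ℝ) + 1) * K * (1 + 1 / |ξ|) := by
      have h1 : (1 : ℝ) ≤ (r : ℝ) + 1 := by linarith
      have h2 : (1 : ℝ) ≤ 1 + 1 / |ξ| := by
        have : 0 < 1 / |ξ| := by positivity
        linarith
      have h3 : 1 ≤ ((r : ℝ) + 1) * K := one_le_mul_of_one_le_of_one_le h1 hK
      exact one_le_mul_of_one_le_of_one_le h3 h2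
    rcases i with _ | i
    · simp only [pow_zero, mul_one, ex]
      have h0 := hann 0 (by omega)
      have h0R : ∑ j ∈ range (r + 1), (p j : ℝ) * (x j : ℝ) = 0 := by
        have : ((∑ j ∈ range (r + 1), p j * x (0 + j) : ℤ) : ℝ) = 0 := by rw [h0]; simp
        push_cast at this
        simpa using this
      -- value at ξ
      set S : ℝ := ∑ j ∈ range (r + 1), (p j : ℝ) * ξ ^ j with hS
      have hYS : Y * S = -∑ j ∈ range (r + 1), (p j : ℝ) * ((x j : ℝ) - Y * ξ ^ j) := by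
        rw [hS, Finset.mul_sum]
        have : ∑ j ∈ range (r + 1), (p j : ℝ) * ((x j : ℝ) - Y * ξ ^ j) =
            ∑ j ∈ range (r + 1), (p j : ℝ) * (x j : ℝ) -
              ∑ j ∈ range (r + 1), Y * ((p j : ℝ) * ξ ^ j) := by
          rw [← Finset.sum_sub_distrib]
          apply Finset.sum_congr rfl
          intro j _
          ring
        rw [this, h0R]
        ring
      have hYSb : |Y * S| ≤ ((r : ℝ) + 1) * (K * |(p 0 : ℝ)| * e) := by
        rw [hYS, abs_neg]
        refine (Finset.abs_sum_le_sum_abs _ _).trans ?_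
        calc ∑ j ∈ range (r + 1), |(p j : ℝ) * ((x j : ℝ) - Y * ξ ^ j)|
            ≤ ∑ _j ∈ range (r + 1), K * |(p 0 : ℝ)| * e := by
              apply Finset.sum_le_sum
              intro j hj
              rw [mem_range] at hj
              rw [abs_mul]
              exact mul_le_mul (hp j (by omega)) (hx j (by omega)) (abs_nonneg _)
                (mul_nonneg (by linarith) (abs_nonneg _))
          _ = ((r : ℝ) + 1) * (K * |(p 0 : ℝ)| * e) := by
              rw [Finset.sum_const, card_range, nsmul_eq_mul]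
              push_cast
              ring
      have hmain : ((-∑ j ∈ range r, p (j + 1) * x j : ℤ) : ℝ) - (p 0 : ℝ) * Y / ξ =
          -(∑ j ∈ range r, (p (j + 1) : ℝ) * ((x j : ℝ) - Y * ξ ^ j)) - (Y * S) / ξ := by
        have h1 : Y * S = Y * p 0 + ∑ j ∈ range r, (p (j + 1) : ℝ) * (Y * ξ ^ (j + 1)) := by
          rw [hS, Finset.sum_range_succ', mul_add, Finset.mul_sum]
          rw [add_comm]
          congr 1
          · simp
          · apply Finset.sum_congr rfl
            intro j _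
            ring
        have h2 : ∑ j ∈ range r, (p (j + 1) : ℝ) * (Y * ξ ^ (j + 1)) =
            ξ * ∑ j ∈ range r, (p (j + 1) : ℝ) * (Y * ξ ^ j) := by
          rw [Finset.mul_sum]
          apply Finset.sum_congr rfl
          intro j _
          ring
        rw [h1, h2]
        have h3 : ∑ j ∈ range r, (p (j + 1) : ℝ) * ((x j : ℝ) - Y * ξ ^ j) =
            ∑ j ∈ range r, (p (j + 1) : ℝ) * (x j : ℝ) -
              ∑ j ∈ range r, (p (j + 1) : ℝ) * (Y * ξ ^ j) := by
          rw [← Finset.sum_sub_distrib]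
          apply Finset.sum_congr rfl
          intro j _
          ring
        rw [h3]
        push_cast
        field_simp
        ring
      rw [hmain]
      have hA : |∑ j ∈ range r, (p (j + 1) : ℝ) * ((x j : ℝ) - Y * ξ ^ j)| ≤
          (r : ℝ) * (K * |(p 0 : ℝ)| * e) := by
        refine (Finset.abs_sum_le_sum_abs _ _).trans ?_
        calc ∑ j ∈ range r, |(p (j + 1) : ℝ) * ((x j : ℝ) - Y * ξ ^ j)|
            ≤ ∑ _j ∈ range r, K * |(p 0 : ℝ)| * e := by
              apply Finset.sum_le_sum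
              intro j hj
              rw [mem_range] at hj
              rw [abs_mul]
              exact mul_le_mul (hp (j + 1) (by omega)) (hx j (by omega)) (abs_nonneg _)
                (mul_nonneg (by linarith) (abs_nonneg _))
          _ = (r : ℝ) * (K * |(p 0 : ℝ)| * e) := by
              rw [Finset.sum_const, card_range, nsmul_eq_mul]
      have hB : |(Y * S) / ξ| ≤ ((r : ℝ) + 1) * (K * |(p 0 : ℝ)| * e) * (1 / |ξ|) := by
        rw [abs_div, div_eq_mul_one_div]
        exact mul_le_mul_of_nonneg_right hYSb (by positivity)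
      have hKe : 0 ≤ K * |(p 0 : ℝ)| * e := mul_nonneg (mul_nonneg (by linarith) (abs_nonneg _)) he
      calc |-(∑ j ∈ range r, (p (j + 1) : ℝ) * ((x j : ℝ) - Y * ξ ^ j)) - (Y * S) / ξ|
          ≤ |-(∑ j ∈ range r, (p (j + 1) : ℝ) * ((x j : ℝ) - Y * ξ ^ j))| + |(Y * S) / ξ| :=
            abs_sub _ _
        _ ≤ (r : ℝ) * (K * |(p 0 : ℝ)| * e) + ((r : ℝ) + 1) * (K * |(p 0 : ℝ)| * e) * (1 / |ξ|) := by
            rw [abs_neg]
            exact add_le_add hA hB
        _ ≤ ((r + 1) * K * (1 + 1 / |ξ|) * |(p 0 : ℝ)|) * e := by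
            nlinarith [hKe]
    · simp only [ex]
      have h1 := hx i (by omega)
      have h2 : ((p 0 * x i : ℤ) : ℝ) - (p 0 : ℝ) * Y / ξ * ξ ^ (i + 1) =
          p 0 * ((x i : ℝ) - Y * ξ ^ i) := by
        push_cast
        field_simp
        ring
      rw [h2, abs_mul]
      calc |(p 0 : ℝ)| * |(x i : ℝ) - Y * ξ ^ i| ≤ |(p 0 : ℝ)| * e :=
            mul_le_mul_of_nonneg_left h1 (abs_nonneg _)
        _ = 1 * (|(p 0 : ℝ)| * e) := by ring
        _ ≤ (((r : ℝ) + 1) * K * (1 + 1 / |ξ|)) * (|(p 0 : ℝ)| * e) :=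
            mul_le_mul_of_nonneg_right hfac (mul_nonneg (abs_nonneg _) he)
        _ = ((r + 1) * K * (1 + 1 / |ξ|) * |(p 0 : ℝ)|) * e := by ring

theorem ext_steps (r L : ℕ) (hr : r ≤ L) (p x : ℕ → ℤ)
    (hann : ∀ i, i + r ≤ L → ∑ j ∈ range (r + 1), p j * x (i + j) = 0)
    (ξ Y e K : ℝ) (hξ : ξ ≠ 0) (he : 0 ≤ e) (hK : 1 ≤ K)
    (hp : ∀ j, j ≤ r → |(p j : ℝ)| ≤ K * |(p 0 : ℝ)|)
    (hx : ∀ i, i ≤ L → |(x i : ℝ) - Y * ξ ^ i| ≤ e) (s : ℕ) :
    ∃ y : ℕ → ℤ, (∀ i, i + r ≤ L + s → ∑ j ∈ range (r + 1), p j * y (i + j) = 0) ∧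
      ∀ i, i ≤ L + s → |(y i : ℝ) - (Y * ((p 0 : ℝ) / ξ) ^ s) * ξ ^ i| ≤
        ((r + 1) * K * (1 + 1 / |ξ|) * |(p 0 : ℝ)|) ^ s * e := by
  induction s with
  | zero => exact ⟨x, hann, by simpa using hx⟩
  | succ s ih =>
    obtain ⟨y, hy1, hy2⟩ := ih
    have hpos : 0 ≤ ((r + 1) * K * (1 + 1 / |ξ|) * |(p 0 : ℝ)|) ^ s * e := by positivity
    obtain ⟨z, hz1, hz2⟩ := ext_step r (L + s) (by omega) p y hy1 ξ _ _ K hξ hpos hK hp hy2
    refine ⟨z, hz1, fun i hi => ?_⟩
    have h := hz2 i hi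
    have e1 : (p 0 : ℝ) * (Y * ((p 0 : ℝ) / ξ) ^ s) / ξ = Y * ((p 0 : ℝ) / ξ) ^ (s + 1) := by
      rw [pow_succ]
      ring
    have e2 : ((r + 1) * K * (1 + 1 / |ξ|) * |(p 0 : ℝ)|) *
        (((r + 1) * K * (1 + 1 / |ξ|) * |(p 0 : ℝ)|) ^ s * e) =
        ((r + 1) * K * (1 + 1 / |ξ|) * |(p 0 : ℝ)|) ^ (s + 1) * e := by
      rw [pow_succ]
      ring
    rw [e1, e2] at h
    exact h

end Pool.Agent.R330.Lam
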