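import Mathlib
import Pool.Agent.R330.Lam.B

/-! Linear functionals on polynomials and shifts. -/

set_option autoImplicit false

open Polynomial Matrix Finset

namespace Pool.Agent.R330.Lam

/-- the functional with `X ^ i ↦ x i` -/
noncomputable def Fl (x : ℕ → ℤ) : ℤ[X] →ₗ[ℤ] ℤ :=
  Polynomial.lsum (fun i => (x i) • (LinearMap.id : ℤ →ₗ[ℤ] ℤ))

theorem Fl_eq (x : ℕ → ℤ) (R : ℤ[X]) (n : ℕ) (h : R.natDegree ≤ n) :
    Fl x R = ∑ i ∈ range (n + 1), R.coeff i * x i := by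
  unfold Fl
  rw [Polynomial.lsum_apply, Polynomial.sum_over_range' _ _ (n + 1) (by omega)]
  · apply Finset.sum_congr rfl
    intro i _
    simp [mul_comm]
  · intro i
    simp

theorem Fl_C_mul (x : ℕ → ℤ) (c : ℤ) (R : ℤ[X]) : Fl x (C c * R) = c * Fl x R := by
  rw [← smul_eq_C_mul, map_smul, smul_eq_mul]

theorem Fl_X_pow (x : ℕ → ℤ) (i : ℕ) : Fl x (X ^ i) = x i := by
  rw [Fl_eq x (X ^ i) i (natDegree_X_pow_le i), Finset.sum_eq_single i]
  · simp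
  · intro j _ hj
    rw [coeff_X_pow, if_neg hj, zero_mul]
  · simp

theorem Fl_mul_sum (x : ℕ → ℤ) (P R : ℤ[X]) (n : ℕ) (h : R.natDegree ≤ n) :
    Fl x (P * R) = ∑ i ∈ range (n + 1), R.coeff i * Fl x (P * X ^ i) := by
  conv_lhs => rw [R.as_sum_range_C_mul_X_pow' (n := n + 1) (by omega), Finset.mul_sum, map_sum]
  apply Finset.sum_congr rfl
  intro i _
  rw [show P * (C (R.coeff i) * X ^ i) = C (R.coeff i) * (P * X ^ i) by ring, Fl_C_mul]

theorem Fl_mul_X_pow (x : ℕ → ℤ) (P : ℤ[X]) (r i : ℕ) (h : P.natDegree ≤ r) :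
    Fl x (P * X ^ i) = ∑ j ∈ range (r + 1), P.coeff j * x (i + j) := by
  rw [mul_comm, Fl_mul_sum x (X ^ i) P r h]
  apply Finset.sum_congr rfl
  intro j _
  rw [← pow_add, Fl_X_pow]

/-- `P` annihilates `x` up to index `n` -/
def An (x : ℕ → ℤ) (n r : ℕ) (P : ℤ[X]) : Prop := ∀ i, i + r ≤ n → Fl x (P * X ^ i) = 0

theorem An.mul {x : ℕ → ℤ} {n r : ℕ} {P : ℤ[X]} (h : An x n r P) (R : ℤ[X])
    (hR : R.natDegree + r ≤ n) : Fl x (P * R) = 0 := by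
  rw [Fl_mul_sum x P R R.natDegree le_rfl]
  apply Finset.sum_eq_zero
  intro i hi
  rw [mem_range] at hi
  rw [h i (by omega), mul_zero]

/-- shifted sequence -/
noncomputable def sh (a : ℤ) (x : ℕ → ℤ) (i : ℕ) : ℤ := Fl x ((X - C a) ^ i)

theorem Fl_sh (a : ℤ) (x : ℕ → ℤ) (R : ℤ[X]) : Fl (sh a x) R = Fl x (R.comp (X - C a)) := by
  rw [Fl_eq _ R R.natDegree le_rfl, Polynomial.comp, eval₂_eq_sum_range, map_sum]
  apply Finset.sum_congr rfl
  intro i _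
  rw [Fl_C_mul]
  rfl

theorem natDegree_shift_pow (a : ℤ) (i : ℕ) : ((X - C a : ℤ[X]) ^ i).natDegree = i := by
  rw [natDegree_pow, natDegree_X_sub_C, mul_one]

theorem natDegree_shift_pow' (a : ℤ) (i : ℕ) : ((X + C a : ℤ[X]) ^ i).natDegree = i := by
  rw [natDegree_pow, natDegree_X_add_C, mul_one]

theorem An_sh {x : ℕ → ℤ} {n r : ℕ} {P : ℤ[X]} (a : ℤ) (h : An x n r P) :
    An (sh a x) n r (P.comp (X + C a)) := by
  intro i hi
  rw [Fl_sh, mul_comp, comp_assoc]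
  simp only [add_comp, X_comp, C_comp, sub_add_cancel, comp_X, X_pow_comp]
  apply h.mul
  rw [natDegree_shift_pow]
  exact hi

theorem An_of_sh {x : ℕ → ℤ} {n r : ℕ} {P : ℤ[X]} (a : ℤ) (h : An (sh a x) n r P) :
    An x n r (P.comp (X - C a)) := by
  intro i hi
  have h1 : P.comp (X - C a) * X ^ i = (P * (X + C a) ^ i).comp (X - C a) := by
    rw [mul_comp, pow_comp]
    simp
  rw [h1, ← Fl_sh]
  apply h.mul
  rw [natDegree_shift_pow']
  exact hi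

/-- sum of the absolute values of the coefficients -/
noncomputable def len1 (n : ℕ) (R : ℤ[X]) : ℝ := ∑ i ∈ range (n + 1), |(R.coeff i : ℝ)|

theorem len1_nonneg (n : ℕ) (R : ℤ[X]) : 0 ≤ len1 n R := Finset.sum_nonneg fun _ _ => abs_nonneg _

theorem Fl_approx (x : ℕ → ℤ) (n : ℕ) (ξ Y e : ℝ)
    (hx : ∀ i, i ≤ n → |(x i : ℝ) - Y * ξ ^ i| ≤ e) (R : ℤ[X]) (h : R.natDegree ≤ n) :
    |((Fl x R : ℤ) : ℝ) - Y * aeval ξ R| ≤ len1 n R * e := by
  rw [Fl_eq x R n h, aeval_eq_sum_range' (n := n + 1) (by omega)]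
  push_cast
  rw [Finset.mul_sum, ← Finset.sum_sub_distrib]
  refine (Finset.abs_sum_le_sum_abs _ _).trans ?_
  unfold len1
  rw [Finset.sum_mul]
  apply Finset.sum_le_sum
  intro i hi
  rw [mem_range] at hi
  have h1 : (R.coeff i : ℝ) * (x i : ℝ) - Y * (R.coeff i • ξ ^ i) =
      (R.coeff i : ℝ) * ((x i : ℝ) - Y * ξ ^ i) := by
    simp only [zsmul_eq_mul]
    ring
  rw [h1, abs_mul]
  exact mul_le_mul_of_nonneg_left (hx i (by omega)) (abs_nonneg _)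

/-- constant for the shifts -/
noncomputable def Kc (n : ℕ) (a : ℤ) : ℝ :=
  1 + ∑ i ∈ range (n + 1), (len1 n ((X - C a) ^ i) + len1 n ((X + C a) ^ i))

theorem Kc_one (n : ℕ) (a : ℤ) : 1 ≤ Kc n a := by
  unfold Kc
  have : 0 ≤ ∑ i ∈ range (n + 1), (len1 n ((X - C a) ^ i) + len1 n ((X + C a) ^ i)) :=
    Finset.sum_nonneg fun i _ => add_nonneg (len1_nonneg _ _) (len1_nonneg _ _)
  linarith

theorem le_Kc (n : ℕ) (a : ℤ) (i : ℕ) (hi : i ≤ n) :
    len1 n ((X - C a) ^ i) ≤ Kc n a ∧ len1 n ((X + C a) ^ i) ≤ Kc n a := by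
  unfold Kc
  have h1 := Finset.single_le_sum (f := fun i => len1 n ((X - C a) ^ i) + len1 n ((X + C a) ^ i))
    (fun i _ => add_nonneg (len1_nonneg _ _) (len1_nonneg _ _)) (mem_range.mpr (show i < n + 1 by omega))
  have h2 := len1_nonneg n ((X - C a) ^ i)
  have h3 := len1_nonneg n ((X + C a) ^ i)
  constructor <;> linarith

theorem sh_approx (a : ℤ) (x : ℕ → ℤ) (n : ℕ) (ξ Y e : ℝ) (he : 0 ≤ e)
    (hx : ∀ i, i ≤ n → |(x i : ℝ) - Y * ξ ^ i| ≤ e) (i : ℕ) (hi : i ≤ n) :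
    |((sh a x i : ℤ) : ℝ) - Y * (ξ - a) ^ i| ≤ Kc n a * e := by
  have h := Fl_approx x n ξ Y e hx ((X - C a) ^ i) (by rw [natDegree_shift_pow]; exact hi)
  have h2 : aeval ξ ((X - C a : ℤ[X]) ^ i) = (ξ - a) ^ i := by simp
  rw [h2] at h
  exact h.trans (mul_le_mul_of_nonneg_right (le_Kc n a i hi).1 he)

theorem sh_approx' (a : ℤ) (x : ℕ → ℤ) (n : ℕ) (ξ Y e : ℝ) (he : 0 ≤ e)
    (hx : ∀ i, i ≤ n → |(x i : ℝ) - Y * (ξ - a) ^ i| ≤ e) (i : ℕ) (hi : i ≤ n) :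
    |((Fl x ((X + C a) ^ i) : ℤ) : ℝ) - Y * ξ ^ i| ≤ Kc n a * e := by
  have h := Fl_approx x n (ξ - a) Y e hx ((X + C a) ^ i) (by rw [natDegree_shift_pow']; exact hi)
  have h2 : aeval (ξ - a) ((X + C a : ℤ[X]) ^ i) = ξ ^ i := by simp
  rw [h2] at h
  exact h.trans (mul_le_mul_of_nonneg_right (le_Kc n a i hi).2 he)

/-- A shift for which the constant coefficient dominates. -/
theorem choose_a (n : ℕ) : ∃ K : ℝ, 1 ≤ K ∧ ∀ P : ℤ[X], P ≠ 0 → P.natDegree ≤ n →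
    ∃ a : ℕ, a ≤ n ∧ (P.comp (X + C (a : ℤ))).coeff 0 ≠ 0 ∧
      ∀ j, |(((P.comp (X + C (a : ℤ))).coeff j : ℤ) : ℝ)| ≤
        K * |(((P.comp (X + C (a : ℤ))).coeff 0 : ℤ) : ℝ)| := by
  classical
  set W : Fin (n + 1) → Matrix (Fin (n + 1)) (Fin (n + 1)) ℝ :=
    fun a => (Matrix.vandermonde fun b : Fin (n + 1) => ((b : ℕ) : ℝ) - ((a : ℕ) : ℝ))⁻¹ with hW
  set Ka : Fin (n + 1) → ℝ := fun a => ∑ j, ∑ b, |W a j b| with hKa
  have hKa0 : ∀ a, 0 ≤ Ka a := fun a =>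
    Finset.sum_nonneg fun j _ => Finset.sum_nonneg fun b _ => abs_nonneg _
  refine ⟨1 + ∑ a, Ka a, ?_, ?_⟩
  · have : 0 ≤ ∑ a, Ka a := Finset.sum_nonneg fun a _ => hKa0 a
    linarith
  intro P hP hPn
  obtain ⟨a, -, ha⟩ := Finset.exists_max_image (Finset.univ : Finset (Fin (n + 1)))
    (fun b => |((P.eval ((b : ℕ) : ℤ) : ℤ) : ℝ)|) ⟨0, mem_univ _⟩
  set Q : ℤ[X] := P.comp (X + C ((a : ℕ) : ℤ)) with hQ
  have hQdeg : Q.natDegree ≤ n := by
    rw [hQ, natDegree_comp, natDegree_X_add_C, mul_one]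
    exact hPn
  have hQ0 : Q.coeff 0 = P.eval ((a : ℕ) : ℤ) := by
    rw [coeff_zero_eq_eval_zero, hQ, eval_comp]
    simp
  have hvan : (Matrix.vandermonde fun b : Fin (n + 1) => ((b : ℕ) : ℝ) - ((a : ℕ) : ℝ)).det ≠ 0 := by
    rw [Matrix.det_vandermonde_ne_zero_iff]
    intro b b' hbb
    simp only [sub_left_inj, Nat.cast_inj] at hbb
    exact Fin.ext hbb
  have hmul : (Matrix.vandermonde fun b : Fin (n + 1) => ((b : ℕ) : ℝ) - ((a : ℕ) : ℝ)) *ᵥ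
      (fun j : Fin (n + 1) => ((Q.coeff j : ℤ) : ℝ)) =
      fun b : Fin (n + 1) => ((P.eval ((b : ℕ) : ℤ) : ℤ) : ℝ) := by
    ext b
    have h1 : P.eval ((b : ℕ) : ℤ) = Q.eval (((b : ℕ) : ℤ) - ((a : ℕ) : ℤ)) := by
      rw [hQ, eval_comp]
      simp
    rw [h1, eval_eq_sum_range' (n := n + 1) (by omega)]
    simp only [Matrix.mulVec, dotProduct, Matrix.vandermonde_apply]
    push_cast
    rw [Finset.sum_range]
    apply Finset.sum_congr rfl
    intro j _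
    ring
  have hsol : ∀ j : Fin (n + 1), ((Q.coeff j : ℤ) : ℝ) =
      ∑ b, W a j b * ((P.eval ((b : ℕ) : ℤ) : ℤ) : ℝ) := by
    intro j
    have h1 := congrArg (fun v => W a *ᵥ v) hmul
    simp only [Matrix.mulVec_mulVec] at h1
    rw [hW] at h1
    simp only at h1
    rw [Matrix.nonsing_inv_mul _ (isUnit_iff_ne_zero.mpr hvan), Matrix.one_mulVec] at h1
    have h2 := congrFun h1 j
    simp only [Matrix.mulVec, dotProduct] at h2
    exact h2
  have hbound : ∀ j : Fin (n + 1), |((Q.coeff j : ℤ) : ℝ)| ≤ Ka a * |((Q.coeff 0 : ℤ) : ℝ)| := by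
    intro j
    rw [hsol j, hQ0]
    refine (Finset.abs_sum_le_sum_abs _ _).trans ?_
    calc ∑ b, |W a j b * ((P.eval ((b : ℕ) : ℤ) : ℤ) : ℝ)|
        ≤ ∑ b, |W a j b| * |((P.eval ((a : ℕ) : ℤ) : ℤ) : ℝ)| := by
          apply Finset.sum_le_sum
          intro b _
          rw [abs_mul]
          exact mul_le_mul_of_nonneg_left (ha b (mem_univ _)) (abs_nonneg _)
      _ = (∑ b, |W a j b|) * |((P.eval ((a : ℕ) : ℤ) : ℤ) : ℝ)| := by rw [Finset.sum_mul]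
      _ ≤ Ka a * |((P.eval ((a : ℕ) : ℤ) : ℤ) : ℝ)| := by
          apply mul_le_mul_of_nonneg_right _ (abs_nonneg _)
          exact Finset.single_le_sum (f := fun j => ∑ b, |W a j b|)
            (fun j _ => Finset.sum_nonneg fun b _ => abs_nonneg _) (mem_univ j)
  have hKle : Ka a ≤ 1 + ∑ a, Ka a := by
    have := Finset.single_le_sum (f := Ka) (fun a _ => hKa0 a) (mem_univ a)
    linarith
  have hall : ∀ j, |((Q.coeff j : ℤ) : ℝ)| ≤ (1 + ∑ a, Ka a) * |((Q.coeff 0 : ℤ) : ℝ)| := by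
    intro j
    by_cases hj : j < n + 1
    · exact (hbound ⟨j, hj⟩).trans (mul_le_mul_of_nonneg_right hKle (abs_nonneg _))
    · rw [coeff_eq_zero_of_natDegree_lt (by omega)]
      simp only [Int.cast_zero, abs_zero]
      exact mul_nonneg ((hKa0 a).trans hKle) (abs_nonneg _)
  refine ⟨a, by omega, ?_, hall⟩
  intro h0
  apply hP
  have hQz : Q = 0 := by
    ext j
    have h1 := hall j
    rw [← hQ] at h0
    rw [h0] at h1
    simp only [Int.cast_zero, abs_zero, mul_zero] at h1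
    have h2 := le_antisymm h1 (abs_nonneg _)
    rw [abs_eq_zero] at h2
    rw [coeff_zero]
    exact_mod_cast h2
  have h3 : P = Q.comp (X - C ((a : ℕ) : ℤ)) := by
    rw [hQ, comp_assoc]
    simp
  rw [h3, hQz, zero_comp]

end Pool.Agent.R330.Lam
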