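import Mathlib
import Pool.Agent.R330.Lam.C

/-! Production of approximations in higher dimension. -/

set_option autoImplicit false

open Polynomial Matrix Finset

namespace Pool.Agent.R330.Lam

theorem abs_pow_le (ξ : ℝ) {i n : ℕ} (h : i ≤ n) : |ξ ^ i| ≤ (1 + |ξ|) ^ n := by
  rw [abs_pow]
  have h0 : 0 ≤ |ξ| := abs_nonneg _
  calc |ξ| ^ i ≤ (1 + |ξ|) ^ i := pow_le_pow_left₀ h0 (by linarith) i
    _ ≤ (1 + |ξ|) ^ n := pow_le_pow_right₀ (by linarith) h

theorem size_le (x : ℕ → ℤ) (n : ℕ) (ξ Y e : ℝ)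
    (hx : ∀ i, i ≤ n → |(x i : ℝ) - Y * ξ ^ i| ≤ e) (i : ℕ) (hi : i ≤ n) :
    |(x i : ℝ)| ≤ |Y| * (1 + |ξ|) ^ n + e := by
  have h1 := hx i hi
  have h2 : |(x i : ℝ)| ≤ |(x i : ℝ) - Y * ξ ^ i| + |Y * ξ ^ i| := by
    have := abs_add_le ((x i : ℝ) - Y * ξ ^ i) (Y * ξ ^ i)
    simpa using this
  rw [abs_mul] at h2
  have h3 := mul_le_mul_of_nonneg_left (abs_pow_le ξ hi) (abs_nonneg Y)
  linarith

/-- existence of an annihilator of small degree -/
theorem exists_an (n : ℕ) (ξ : ℝ) (x : ℕ → ℤ) (q e : ℝ) (hq : 0 ≤ q)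
    (hx : ∀ i, i ≤ n → |(x i : ℝ) - q * ξ ^ i| ≤ e)
    (hsmall : ∀ k : ℕ, n = 2 * k → ((k + 1).factorial : ℝ) *
      ((q * (1 + |ξ|) ^ n + e) * ((1 + |ξ|) * e) ^ k) < 1) :
    ∃ P : ℤ[X], P ≠ 0 ∧ P.natDegree ≤ (n + 1) / 2 ∧ An x n ((n + 1) / 2) P := by
  set r := (n + 1) / 2 with hr
  set M : Matrix (Fin (r + 1)) (Fin (r + 1)) ℤ :=
    Matrix.of fun i j => if (i : ℕ) + r ≤ n then x (i + j) else 0 with hM
  have hdet : M.det = 0 := by
    rcases Nat.even_or_odd' n with ⟨k, hk | hk⟩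
    · have hrk : r = k := by omega
      have h1 := hankel_bound 0 r x ξ q e (q * (1 + |ξ|) ^ n + e)
        (fun i hi => hx i (by omega)) (fun i hi => by
          have := size_le x n ξ q e hx i (by omega)
          rwa [abs_of_nonneg hq] at this)
      have h2 := hsmall k hk
      rw [← hrk] at h2
      have hMe : M = Matrix.of fun i j : Fin (r + 1) => x (0 + i + j) := by
        ext i j
        rw [hM]
        simp only [Matrix.of_apply, zero_add]
        rw [if_pos (by have := i.2; omega)]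
      rw [← hMe] at h1
      have h3 : |((M.det : ℤ) : ℝ)| < 1 := lt_of_le_of_lt h1 h2
      have h4 : |M.det| < 1 := by exact_mod_cast h3
      exact Int.abs_lt_one_iff.mp h4
    · apply Matrix.det_eq_zero_of_row_eq_zero (Fin.last r)
      intro j
      rw [hM]
      simp only [Matrix.of_apply, Fin.val_last]
      rw [if_neg (by omega)]
  obtain ⟨v, hv0, hv⟩ := Matrix.exists_mulVec_eq_zero_iff.mpr hdet
  have hBdeg : (B v).natDegree ≤ r := by
    have h1 := B_natDegree v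
    rcases eq_or_ne (B v) 0 with h | h
    · rw [h]
      simp
    · rw [degree_eq_natDegree h] at h1
      have h2 : (B v).natDegree < r + 1 := by exact_mod_cast h1
      omega
  refine ⟨B v, ?_, hBdeg, ?_⟩
  · intro h
    apply hv0
    ext i
    rw [← B_coeff v i, h]
    simp
  · intro i hi
    rw [Fl_mul_X_pow x (B v) r i hBdeg, Finset.sum_range]
    have h1 := congrFun hv ⟨i, by omega⟩
    simp only [Matrix.mulVec, dotProduct, hM, Matrix.of_apply, Pi.zero_apply] at h1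
    rw [← h1]
    apply Finset.sum_congr rfl
    intro j _
    rw [B_coeff, if_pos hi]
    ring

/-- the minimal annihilator -/
theorem exists_min (n : ℕ) (hn : 1 ≤ n) (x : ℕ → ℤ) (hx0 : x 0 ≠ 0)
    (hex : ∃ P : ℤ[X], P ≠ 0 ∧ P.natDegree ≤ (n + 1) / 2 ∧ An x n ((n + 1) / 2) P) :
    ∃ (r : ℕ) (P : ℤ[X]), 1 ≤ r ∧ 2 * r ≤ n + 1 ∧ P ≠ 0 ∧ P.natDegree ≤ r ∧ An x n r P ∧
      ∀ (Q : ℤ[X]), Q.degree < r → (∀ t, t + r ≤ n + 1 → Fl x (Q * X ^ t) = 0) → Q = 0 := by
  classical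
  have hex' : ∃ r, 1 ≤ r ∧ ∃ P : ℤ[X], P ≠ 0 ∧ P.natDegree ≤ r ∧ An x n r P :=
    ⟨(n + 1) / 2, by omega, hex⟩
  obtain ⟨hr1, P, hP0, hPd, hPA⟩ := Nat.find_spec hex'
  set r := Nat.find hex' with hr
  have hrle : r ≤ (n + 1) / 2 := Nat.find_min' hex' ⟨by omega, hex⟩
  refine ⟨r, P, hr1, by omega, hP0, hPd, hPA, ?_⟩
  intro Q hQd hQ
  by_contra hQ0
  rw [degree_eq_natDegree hQ0] at hQd
  have hQd' : Q.natDegree < r := by exact_mod_cast hQd
  rcases Nat.lt_or_ge 1 r with h | h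
  · have := Nat.find_min hex' (m := r - 1) (by omega)
    apply this
    refine ⟨by omega, Q, hQ0, by omega, fun i hi => hQ i (by omega)⟩
  · have h1 := hQ 0 (by omega)
    rw [Fl_mul_X_pow x Q 0 0 (by omega)] at h1
    simp only [zero_add, range_one, sum_singleton] at h1
    have h2 : Q.coeff 0 = 0 := (mul_eq_zero.mp h1).resolve_right (by simpa using hx0)
    apply hQ0
    rw [eq_C_of_natDegree_le_zero (show Q.natDegree ≤ 0 by omega), h2, C_0]

/-- core estimate for a fixed shift -/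
theorem core (n s : ℕ) (hn : 1 ≤ n) (ξ : ℝ) (a : ℤ) (hξ : ξ - a ≠ 0) (K : ℝ) (hK : 1 ≤ K) :
    ∃ C : ℝ, 1 ≤ C ∧ ∀ (q : ℝ) (e : ℝ) (x : ℕ → ℤ) (r : ℕ) (P : ℤ[X]), 1 ≤ q → C ≤ q → 0 < e →
      e ≤ 1 → e ≤ q ^ (-(2 / (n : ℝ))) →
      (∀ i, i ≤ n → |(x i : ℝ) - q * ξ ^ i| ≤ e) → 1 ≤ r → 2 * r ≤ n + 1 →
      P.natDegree ≤ r → P.coeff 0 ≠ 0 → An (sh a x) n r P →
      (∀ j, |((P.coeff j : ℤ) : ℝ)| ≤ K * |((P.coeff 0 : ℤ) : ℝ)|) →
      (∀ (Q : ℤ[X]), Q.degree < r → (∀ t, t + r ≤ n + 1 → Fl (sh a x) (Q * X ^ t) = 0) → Q = 0) →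
      ∃ (u : ℕ) (z : ℕ → ℤ), q ≤ C * u ∧ (u : ℝ) ≤ C * (q ^ ((s : ℝ) / n) * q) ∧
        ∀ j, j ≤ n + s → |(u : ℝ) * ξ ^ j - z j| ≤ C * (q ^ ((s : ℝ) / n) * e) := by
  set ξ' : ℝ := ξ - a with hξ'
  set k1 := Kc n a with hk1
  have hk11 : 1 ≤ k1 := Kc_one n a
  set k2 := Kc (n + s) a with hk2
  have hk21 : 1 ≤ k2 := Kc_one (n + s) a
  set A : ℝ := (1 + |ξ'|) ^ n with hA
  have hA1 : 1 ≤ A := one_le_pow₀ (by have := abs_nonneg ξ'; linarith)
  have hξ'0 : 0 < |ξ'| := abs_pos.mpr hξ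
  -- constant for the leading coefficient
  set G : ℝ := (n + 1).factorial * ((A + k1) * ((1 + |ξ'|) * k1) ^ n) with hG
  have hfact : (1 : ℝ) ≤ (n + 1).factorial := by exact_mod_cast Nat.succ_le_of_lt (Nat.factorial_pos _)
  have hG1 : 1 ≤ G := by
    rw [hG]
    have h1 : 1 ≤ A + k1 := by linarith
    have h2 : 1 ≤ ((1 + |ξ'|) * k1) ^ n :=
      one_le_pow₀ (one_le_mul_of_one_le_of_one_le (by linarith) hk11)
    exact one_le_mul_of_one_le_of_one_le hfact (one_le_mul_of_one_le_of_one_le h1 h2)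
  set T : ℝ := ((n + 1) * K * (1 + 1 / |ξ'|)) with hT
  have hT1 : 1 ≤ T := by
    have h1 : (1 : ℝ) ≤ (n : ℝ) + 1 := by
      have : (0 : ℝ) ≤ n := Nat.cast_nonneg n
      linarith
    have h2 : (1 : ℝ) ≤ 1 + 1 / |ξ'| := by
      have : 0 < 1 / |ξ'| := by positivity
      linarith
    exact one_le_mul_of_one_le_of_one_le (one_le_mul_of_one_le_of_one_le h1 hK) h2
  -- error constant
  set D : ℝ := k2 * (T ^ s * k1) with hD
  have hD1 : 1 ≤ D := by
    rw [hD]
    exact one_le_mul_of_one_le_of_one_le hk21 (one_le_mul_of_one_le_of_one_le (one_le_pow₀ hT1) hk11)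
  set Bξ : ℝ := (1 + |ξ|) ^ (n + s) with hBξ
  have hBξ1 : 1 ≤ Bξ := one_le_pow₀ (by have := abs_nonneg ξ; linarith)
  set I : ℝ := 1 + (1 / |ξ'|) ^ s with hI
  have hI1 : 1 ≤ I := by
    have : 0 ≤ (1 / |ξ'|) ^ s := by positivity
    linarith
  set J : ℝ := 2 * |ξ'| ^ s + 2 * D * |ξ'| ^ s + 1 with hJ
  have hJ1 : 1 ≤ J := by
    have : 0 ≤ 2 * |ξ'| ^ s + 2 * D * |ξ'| ^ s := by positivity
    linarith
  set C : ℝ := J + G ^ s * (I + D) + G ^ s * (D * (1 + Bξ)) with hC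
  have hGs : 1 ≤ G ^ s := one_le_pow₀ hG1
  have hC1 : 1 ≤ C := by
    have h1 : 0 ≤ G ^ s * (I + D) := by positivity
    have h2 : 0 ≤ G ^ s * (D * (1 + Bξ)) := by positivity
    linarith
  refine ⟨C, hC1, ?_⟩
  intro q e x r P hq1 hCq he he1 heq hx hr1 hrn hPd hP0 hPA hPK hind
  have hq0 : 0 < q := by linarith
  -- primitive part
  obtain ⟨P', hP'⟩ : ∃ P' : ℤ[X], P' = P.primPart := ⟨_, rfl⟩
  have hPne : P ≠ 0 := by
    intro h
    apply hP0
    rw [h, coeff_zero]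
  have hcont : P.content ≠ 0 := by
    rwa [Ne, content_eq_zero_iff]
  have hPP : P = Polynomial.C P.content * P' := by
    rw [hP']
    exact P.eq_C_content_mul_primPart
  have hprim : P'.IsPrimitive := by
    rw [hP']
    exact P.isPrimitive_primPart
  have hcoef : ∀ j, P.coeff j = P.content * P'.coeff j := by
    intro j
    conv_lhs => rw [hPP, coeff_C_mul]
  have hP'0 : P'.coeff 0 ≠ 0 := by
    intro h
    apply hP0
    rw [hcoef, h, mul_zero]
  have hP'd : P'.natDegree ≤ r := by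
    rw [hP', natDegree_primPart]
    exact hPd
  have hP'K : ∀ j, |((P'.coeff j : ℤ) : ℝ)| ≤ K * |((P'.coeff 0 : ℤ) : ℝ)| := by
    intro j
    have h1 := hPK j
    rw [hcoef j, hcoef 0] at h1
    push_cast at h1
    rw [abs_mul, abs_mul] at h1
    have h2 : 0 < |((P.content : ℤ) : ℝ)| := abs_pos.mpr (by exact_mod_cast hcont)
    have h3 : |((P.content : ℤ) : ℝ)| * |((P'.coeff j : ℤ) : ℝ)| ≤
        |((P.content : ℤ) : ℝ)| * (K * |((P'.coeff 0 : ℤ) : ℝ)|) := by
      calc _ ≤ _ := h1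
        _ = _ := by ring
    exact le_of_mul_le_mul_left h3 h2
  have hP'A : An (sh a x) n r P' := by
    intro i hi
    have h1 := hPA i hi
    rw [hPP, mul_assoc, Fl_C_mul] at h1
    exact (mul_eq_zero.mp h1).resolve_left hcont
  -- the sizes
  set x' := sh a x with hx'
  have hx'a : ∀ i, i ≤ n → |((x' i : ℤ) : ℝ) - q * ξ' ^ i| ≤ k1 * e := fun i hi =>
    sh_approx a x n ξ q e he.le hx i hi
  have hx's : ∀ i, i ≤ n → |((x' i : ℤ) : ℝ)| ≤ (A + k1) * q := by
    intro i hi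
    have h1 := size_le x' n ξ' q (k1 * e) hx'a i hi
    rw [abs_of_pos hq0] at h1
    have h2 : k1 * e ≤ k1 * q := mul_le_mul_of_nonneg_left (he1.trans hq1) (by linarith)
    calc _ ≤ q * (1 + |ξ'|) ^ n + k1 * e := h1
      _ ≤ (A + k1) * q := by rw [hA]; linarith
  obtain ⟨r', rfl⟩ : ∃ r', r = r' + 1 := ⟨r - 1, by omega⟩
  obtain ⟨N, hN⟩ : ∃ N, N + 2 * r' = n := ⟨n - 2 * r', by omega⟩
  have hN1 : 1 ≤ N := by omega
  have hann' : ∀ i, i < N → ∀ k, k < r' + 1 →
      ∑ j ∈ range (r' + 1 + 1), P'.coeff j * x' (i + k + j) = 0 := by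
    intro i hi k hk
    rw [← Fl_mul_X_pow x' P' (r' + 1) (i + k) hP'd]
    exact hP'A (i + k) (by omega)
  have hdvd := hankel_dvd N (r' + 1) P' hprim hP'd x' hann'
  have hne := hankel_ne_zero N (r' + 1) P' hP'0 x' hann' (by
    intro b hb
    have h1 := hind (B b) (B_natDegree b) (by
      intro t ht
      have hBd : (B b).natDegree ≤ r' := by
        have h1 := B_natDegree b
        rcases eq_or_ne (B b) 0 with h | h
        · rw [h]
          simp
        · rw [degree_eq_natDegree h] at h1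
          have h2 : (B b).natDegree < r' + 1 := by exact_mod_cast h1
          omega
      rw [Fl_mul_X_pow _ (B b) r' t hBd, Finset.sum_range]
      rw [← hb t (by omega)]
      apply Finset.sum_congr rfl
      intro j _
      rw [B_coeff])
    ext i
    rw [← B_coeff b i, h1]
    simp)
  have hbd := hankel_bound N r' x' ξ' q (k1 * e) ((A + k1) * q)
    (fun i hi => hx'a i (by omega)) (fun i hi => hx's i (by omega))
  set p : ℝ := |((P'.coeff 0 : ℤ) : ℝ)| with hp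
  have hp1 : 1 ≤ p := by
    rw [hp]
    exact_mod_cast Int.one_le_abs hP'0
  have hpN : p ^ N ≤ G * (q * e ^ r') := by
    have h2 : |(P'.coeff 0) ^ N| ≤ |(Matrix.of fun i j : Fin (r' + 1) => x' (N + i + j)).det| :=
      Int.le_of_dvd (abs_pos.mpr hne) ((abs_dvd_abs _ _).mpr hdvd)
    have h3 : p ^ N ≤ |(((Matrix.of fun i j : Fin (r' + 1) => x' (N + i + j)).det : ℤ) : ℝ)| := by
      rw [hp, ← abs_pow]
      exact_mod_cast h2
    refine h3.trans (hbd.trans ?_)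
    have h4 : ((r' + 1).factorial : ℝ) ≤ (n + 1).factorial := by
      exact_mod_cast Nat.factorial_le (by omega)
    have h5 : ((1 + |ξ'|) * (k1 * e)) ^ r' ≤ ((1 + |ξ'|) * k1) ^ n * e ^ r' := by
      rw [← mul_assoc, mul_pow]
      apply mul_le_mul_of_nonneg_right _ (by positivity)
      apply pow_le_pow_right₀ _ (by omega)
      exact one_le_mul_of_one_le_of_one_le (by linarith) hk11
    calc ((r' + 1).factorial : ℝ) * ((A + k1) * q * ((1 + |ξ'|) * (k1 * e)) ^ r')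
        ≤ (n + 1).factorial * ((A + k1) * q * (((1 + |ξ'|) * k1) ^ n * e ^ r')) := by
          apply mul_le_mul h4 _ (by positivity) (by positivity)
          exact mul_le_mul_of_nonneg_left h5 (by positivity)
      _ = G * (q * e ^ r') := by rw [hG]; ring
  -- p ≤ G q^(1/n)
  have hn0 : (0 : ℝ) < n := by exact_mod_cast hn
  have hpq : p ≤ G * q ^ (1 / (n : ℝ)) := by
    have h1 : q * e ^ r' ≤ (q ^ (1 / (n : ℝ))) ^ N := by
      have h2 : e ^ r' ≤ (q ^ (-(2 / (n : ℝ)))) ^ r' := pow_le_pow_left₀ he.le heq r'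
      calc q * e ^ r' ≤ q * (q ^ (-(2 / (n : ℝ)))) ^ r' := mul_le_mul_of_nonneg_left h2 hq0.le
        _ = q ^ (1 : ℝ) * q ^ (-(2 / (n : ℝ)) * r') := by
            rw [Real.rpow_one, Real.rpow_mul_natCast hq0.le]
        _ = q ^ (1 + -(2 / (n : ℝ)) * r') := by rw [← Real.rpow_add hq0]
        _ = q ^ (1 / (n : ℝ) * N) := by
            congr 1
            have : (n : ℝ) = N + 2 * r' := by exact_mod_cast hN.symm
            field_simp
            rw [this]
            ring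
        _ = (q ^ (1 / (n : ℝ))) ^ N := by rw [Real.rpow_mul_natCast hq0.le]
    have h3 : p ^ N ≤ (G * q ^ (1 / (n : ℝ))) ^ N := by
      rw [mul_pow]
      refine hpN.trans (mul_le_mul ?_ h1 (by positivity) (by positivity))
      exact le_self_pow₀ hG1 (by omega)
    exact le_of_pow_le_pow_left₀ (by omega) (by positivity) h3
  have hps : p ^ s ≤ G ^ s * q ^ ((s : ℝ) / n) := by
    calc p ^ s ≤ (G * q ^ (1 / (n : ℝ))) ^ s := pow_le_pow_left₀ (by linarith) hpq s
      _ = G ^ s * q ^ ((s : ℝ) / n) := by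
          rw [mul_pow, ← Real.rpow_mul_natCast hq0.le]
          congr 2
          field_simp
  -- extension
  obtain ⟨y, -, hy⟩ := ext_steps (r' + 1) n (by omega) (fun j => P'.coeff j) x' (by
    intro i hi
    have h1 := hP'A i hi
    rw [Fl_mul_X_pow x' P' (r' + 1) i hP'd] at h1
    exact h1) ξ' q (k1 * e) K hξ (by positivity) hK (fun j _ => hP'K j) hx'a s
  set Y : ℝ := q * (((P'.coeff 0 : ℤ) : ℝ) / ξ') ^ s with hY
  have hYabs : |Y| = q * (p ^ s * (1 / |ξ'|) ^ s) := by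
    rw [hY, abs_mul, abs_of_pos hq0, abs_pow, abs_div, ← hp, ← mul_pow, mul_one_div]
  have herr : ∀ i, i ≤ n + s → |((y i : ℤ) : ℝ) - Y * ξ' ^ i| ≤ T ^ s * k1 * p ^ s * e := by
    intro i hi
    refine (hy i hi).trans ?_
    have h1 : ((r' + 1 : ℕ) : ℝ) + 1 ≤ (n : ℝ) + 1 := by
      have : ((r' + 1 : ℕ) : ℝ) ≤ n := by exact_mod_cast (show r' + 1 ≤ n by omega)
      linarith
    have h2 : (((r' + 1 : ℕ) : ℝ) + 1) * K * (1 + 1 / |ξ'|) * p ≤ T * p := by
      apply mul_le_mul_of_nonneg_right _ (by linarith)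
      rw [hT]
      exact mul_le_mul_of_nonneg_right (mul_le_mul_of_nonneg_right h1 (by linarith)) (by positivity)
    calc ((((r' + 1 : ℕ) : ℝ) + 1) * K * (1 + 1 / |ξ'|) * p) ^ s * (k1 * e)
        ≤ (T * p) ^ s * (k1 * e) := by
          apply mul_le_mul_of_nonneg_right _ (by positivity)
          exact pow_le_pow_left₀ (by positivity) h2 s
      _ = T ^ s * k1 * p ^ s * e := by rw [mul_pow]; ring
  set z : ℕ → ℤ := fun i => Fl y ((X + Polynomial.C a) ^ i) with hz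
  have hzerr : ∀ i, i ≤ n + s → |((z i : ℤ) : ℝ) - Y * ξ ^ i| ≤ D * (p ^ s * e) := by
    intro i hi
    have h1 := sh_approx' a y (n + s) ξ Y (T ^ s * k1 * p ^ s * e) (by positivity) herr i hi
    calc _ ≤ _ := h1
      _ = D * (p ^ s * e) := by rw [hD]; ring
  have hps1 : 1 ≤ p ^ s := one_le_pow₀ hp1
  have hz0 := hzerr 0 (by omega)
  rw [pow_zero, mul_one] at hz0
  have hpse : p ^ s * e ≤ G ^ s * (q ^ ((s : ℝ) / n) * e) := by
    calc p ^ s * e ≤ (G ^ s * q ^ ((s : ℝ) / n)) * e := mul_le_mul_of_nonneg_right hps he.le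
      _ = _ := by ring
  refine ⟨(z 0).natAbs, fun j => (z 0).sign * z j, ?_, ?_, ?_⟩
  · -- lower bound
    have h1 : ((z 0).natAbs : ℝ) = |((z 0 : ℤ) : ℝ)| := by
      rw [Nat.cast_natAbs]
      push_cast
      rfl
    rw [h1]
    have h2 : |Y| - D * (p ^ s * e) ≤ |((z 0 : ℤ) : ℝ)| := by
      have := abs_sub_abs_le_abs_sub Y ((z 0 : ℤ) : ℝ)
      rw [abs_sub_comm] at this
      linarith
    rw [hYabs] at h2
    -- 2 * D * |ξ'|^s ≤ q
    have hJq : J ≤ q := by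
      refine le_trans ?_ hCq
      have h3 : 0 ≤ G ^ s * (I + D) := by positivity
      have h4 : 0 ≤ G ^ s * (D * (1 + Bξ)) := by positivity
      rw [hC]
      linarith
    have h5 : D * (p ^ s * e) ≤ q * (p ^ s * (1 / |ξ'|) ^ s) / 2 := by
      have h6 : 2 * D * |ξ'| ^ s ≤ q := by
        refine le_trans ?_ hJq
        rw [hJ]
        have : 0 ≤ |ξ'| ^ s := by positivity
        linarith
      have h7 : 2 * D ≤ q * (1 / |ξ'|) ^ s := by
        rw [one_div, inv_pow, ← div_eq_mul_inv, le_div_iff₀ (by positivity)]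
        exact h6
      have h8 : D * (p ^ s * e) ≤ D * p ^ s := by
        calc D * (p ^ s * e) = (D * p ^ s) * e := by ring
          _ ≤ (D * p ^ s) * 1 := mul_le_mul_of_nonneg_left he1 (by positivity)
          _ = D * p ^ s := mul_one _
      calc D * (p ^ s * e) ≤ D * p ^ s := h8
        _ = (2 * D) * p ^ s / 2 := by ring
        _ ≤ (q * (1 / |ξ'|) ^ s) * p ^ s / 2 := by
            apply div_le_div_of_nonneg_right _ (by norm_num)
            exact mul_le_mul_of_nonneg_right h7 (by positivity)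
        _ = q * (p ^ s * (1 / |ξ'|) ^ s) / 2 := by ring
    have h9 : q * (1 / |ξ'|) ^ s / 2 ≤ |((z 0 : ℤ) : ℝ)| := by
      have h10 : q * (1 / |ξ'|) ^ s ≤ q * (p ^ s * (1 / |ξ'|) ^ s) := by
        apply mul_le_mul_of_nonneg_left _ hq0.le
        exact le_mul_of_one_le_left (by positivity) hps1
      linarith
    have h11 : 2 * |ξ'| ^ s ≤ C := by
      have h3 : 0 ≤ G ^ s * (I + D) := by positivity
      have h4 : 0 ≤ G ^ s * (D * (1 + Bξ)) := by positivity
      have h5 : 0 ≤ 2 * D * |ξ'| ^ s := by positivity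
      rw [hC, hJ]
      linarith
    calc q = (2 * |ξ'| ^ s) * (q * (1 / |ξ'|) ^ s / 2) := by
          rw [one_div, inv_pow]
          field_simp
      _ ≤ (2 * |ξ'| ^ s) * |((z 0 : ℤ) : ℝ)| := mul_le_mul_of_nonneg_left h9 (by positivity)
      _ ≤ C * |((z 0 : ℤ) : ℝ)| := mul_le_mul_of_nonneg_right h11 (abs_nonneg _)
  · have h1 : ((z 0).natAbs : ℝ) = |((z 0 : ℤ) : ℝ)| := by
      rw [Nat.cast_natAbs]
      push_cast
      rfl
    rw [h1]
    have h2 : |((z 0 : ℤ) : ℝ)| ≤ |Y| + D * (p ^ s * e) := by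
      have := abs_sub_abs_le_abs_sub ((z 0 : ℤ) : ℝ) Y
      linarith
    rw [hYabs] at h2
    have h3 : D * (p ^ s * e) ≤ D * (p ^ s * q) := by
      apply mul_le_mul_of_nonneg_left _ (by linarith)
      exact mul_le_mul_of_nonneg_left (he1.trans hq1) (by linarith)
    have h4 : q * (p ^ s * (1 / |ξ'|) ^ s) ≤ I * (p ^ s * q) := by
      calc q * (p ^ s * (1 / |ξ'|) ^ s) = (1 / |ξ'|) ^ s * (p ^ s * q) := by ring
        _ ≤ I * (p ^ s * q) := by
            apply mul_le_mul_of_nonneg_right _ (by positivity)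
            rw [hI]
            linarith
    calc |((z 0 : ℤ) : ℝ)| ≤ (I + D) * (p ^ s * q) := by linarith
      _ ≤ (I + D) * ((G ^ s * q ^ ((s : ℝ) / n)) * q) := by
          apply mul_le_mul_of_nonneg_left _ (by linarith)
          exact mul_le_mul_of_nonneg_right hps hq0.le
      _ = (G ^ s * (I + D)) * (q ^ ((s : ℝ) / n) * q) := by ring
      _ ≤ C * (q ^ ((s : ℝ) / n) * q) := by
          apply mul_le_mul_of_nonneg_right _ (by positivity)
          have h5 : 0 ≤ G ^ s * (D * (1 + Bξ)) := by positivity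
          rw [hC]
          linarith
  · intro j hj
    have h1 : ((z 0).natAbs : ℝ) = ((z 0).sign : ℝ) * ((z 0 : ℤ) : ℝ) := by
      have h0 : |z 0| = (z 0).sign * z 0 := by
        rw [← Int.natCast_natAbs]
        exact (Int.sign_mul_self_eq_natAbs _).symm
      rw [Nat.cast_natAbs, h0]
      push_cast
      rfl
    rw [h1]
    push_cast
    have h2 : ((z 0).sign : ℝ) * ((z 0 : ℤ) : ℝ) * ξ ^ j - ((z 0).sign : ℝ) * ((z j : ℤ) : ℝ) =
        ((z 0).sign : ℝ) * (((z 0 : ℤ) : ℝ) * ξ ^ j - ((z j : ℤ) : ℝ)) := by ring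
    rw [h2, abs_mul]
    have h3 : |((z 0).sign : ℝ)| ≤ 1 := by
      have : |(z 0).sign| ≤ 1 := by
        rcases lt_trichotomy (z 0) 0 with h | h | h
        · rw [Int.sign_eq_neg_one_of_neg h]
          norm_num
        · rw [h]
          norm_num
        · rw [Int.sign_eq_one_of_pos h]
          norm_num
      exact_mod_cast this
    have h4 : |((z 0 : ℤ) : ℝ) * ξ ^ j - ((z j : ℤ) : ℝ)| ≤ D * (1 + Bξ) * (p ^ s * e) := by
      have h5 : ((z 0 : ℤ) : ℝ) * ξ ^ j - ((z j : ℤ) : ℝ) =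
          (((z 0 : ℤ) : ℝ) - Y) * ξ ^ j - (((z j : ℤ) : ℝ) - Y * ξ ^ j) := by ring
      rw [h5]
      refine (abs_sub _ _).trans ?_
      rw [abs_mul]
      have h6 := hzerr j hj
      have h7 : |((z 0 : ℤ) : ℝ) - Y| * |ξ ^ j| ≤ D * (p ^ s * e) * Bξ :=
        mul_le_mul hz0 (abs_pow_le ξ hj) (abs_nonneg _) (by positivity)
      calc _ ≤ D * (p ^ s * e) * Bξ + D * (p ^ s * e) := add_le_add h7 h6
        _ = D * (1 + Bξ) * (p ^ s * e) := by ring
    calc |((z 0).sign : ℝ)| * |((z 0 : ℤ) : ℝ) * ξ ^ j - ((z j : ℤ) : ℝ)|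
        ≤ 1 * (D * (1 + Bξ) * (p ^ s * e)) := mul_le_mul h3 h4 (abs_nonneg _) (by norm_num)
      _ ≤ 1 * (D * (1 + Bξ) * (G ^ s * (q ^ ((s : ℝ) / n) * e))) := by
          apply mul_le_mul_of_nonneg_left _ (by norm_num)
          exact mul_le_mul_of_nonneg_left hpse (by positivity)
      _ = (G ^ s * (D * (1 + Bξ))) * (q ^ ((s : ℝ) / n) * e) := by ring
      _ ≤ C * (q ^ ((s : ℝ) / n) * e) := by
          apply mul_le_mul_of_nonneg_right _ (by positivity)
          have h5 : 0 ≤ G ^ s * (I + D) := by positivity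
          rw [hC]
          linarith

end Pool.Agent.R330.Lam
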