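import Mathlib
import Pool.Agent.R330.Lam.D

/-! The inequality `λ_m(ξ) ≥ (n λ_n(ξ) - m + n) / m`. -/

set_option autoImplicit false

open Polynomial Matrix Finset Filter

namespace Pool.Agent.R330.Lam

/-- Dirichlet's theorem on simultaneous approximation -/
theorem dirichlet_simul (N q : ℕ) (hq : 1 ≤ q) (α : ℕ → ℝ) :
    ∃ j : ℕ, 1 ≤ j ∧ j ≤ q ^ N ∧ ∀ i, i < N → ∃ k : ℤ, |(j : ℝ) * α i - k| ≤ 1 / q := by
  have hqR : (0:ℝ) < q := by exact_mod_cast hq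
  let F : Fin (q ^ N + 1) → (Fin N → Fin q) := fun k i =>
    ⟨⌊Int.fract ((k : ℕ) * α i) * q⌋₊, by
      rw [Nat.floor_lt (mul_nonneg (Int.fract_nonneg _) hqR.le)]
      have := Int.fract_lt_one ((k : ℕ) * α i)
      nlinarith⟩
  have hcard : Fintype.card (Fin N → Fin q) < Fintype.card (Fin (q ^ N + 1)) := by
    simp
  obtain ⟨k, k', hne, hF⟩ := Fintype.exists_ne_map_eq_of_card_lt F hcard
  wlog hlt : (k : ℕ) < (k' : ℕ) generalizing k k'
  · refine this k' k hne.symm hF.symm ?_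
    have h1 : (k : ℕ) ≠ (k' : ℕ) := fun h => hne (Fin.ext h)
    omega
  refine ⟨(k' : ℕ) - (k : ℕ), by omega, by have := k'.2; omega, ?_⟩
  intro i hi
  have h1 : F k ⟨i, hi⟩ = F k' ⟨i, hi⟩ := by rw [hF]
  have h2 : ⌊Int.fract (((k : ℕ) : ℝ) * α i) * q⌋₊ = ⌊Int.fract (((k' : ℕ) : ℝ) * α i) * q⌋₊ :=
    congrArg Fin.val h1
  set a := Int.fract (((k : ℕ) : ℝ) * α i) with ha
  set b := Int.fract (((k' : ℕ) : ℝ) * α i) with hb
  have ha0 : 0 ≤ a * q := mul_nonneg (Int.fract_nonneg _) hqR.le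
  have hb0 : 0 ≤ b * q := mul_nonneg (Int.fract_nonneg _) hqR.le
  have e1 := Nat.floor_le ha0
  have e2 := Nat.lt_floor_add_one (a * q)
  have e3 := Nat.floor_le hb0
  have e4 := Nat.lt_floor_add_one (b * q)
  rw [h2] at e1 e2
  have hab : |(b - a) * q| < 1 := by
    rw [abs_lt]; constructor <;> nlinarith
  have hab' : |b - a| ≤ 1 / q := by
    rw [abs_mul, abs_of_pos hqR] at hab
    rw [le_div_iff₀ hqR]
    exact hab.le
  refine ⟨⌊((k' : ℕ) : ℝ) * α i⌋ - ⌊((k : ℕ) : ℝ) * α i⌋, ?_⟩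
  have e5 : b = ((k' : ℕ) : ℝ) * α i - ⌊((k' : ℕ) : ℝ) * α i⌋ := rfl
  have e6 : a = ((k : ℕ) : ℝ) * α i - ⌊((k : ℕ) : ℝ) * α i⌋ := rfl
  have e7 : (((k' : ℕ) - (k : ℕ) : ℕ) : ℝ) = ((k' : ℕ) : ℝ) - ((k : ℕ) : ℝ) := by
    rw [Nat.cast_sub hlt.le]
  have : (((k' : ℕ) - (k : ℕ) : ℕ) : ℝ) * α i -
      ((⌊((k' : ℕ) : ℝ) * α i⌋ - ⌊((k : ℕ) : ℝ) * α i⌋ : ℤ) : ℝ) = b - a := by
    rw [e7, e5, e6]; push_cast; ring
  rw [this]; exact hab'

/-- good denominators -/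
def GS (m : ℕ) (ξ μ : ℝ) : Set ℕ := {q : ℕ | 0 < q ∧ ∀ j ∈ Finset.Icc 1 m,
  |(q : ℝ) * ξ ^ j - ((round ((q : ℝ) * ξ ^ j) : ℤ) : ℝ)| ≤ (q : ℝ) ^ (-μ)}

/-- Dirichlet: the exponent is at least `1 / n`. -/
theorem lam_lower {n : ℕ} (hn : 1 ≤ n) (ξ : ℝ) (hξ : Irrational ξ) (m : ℝ) (hm : m ≤ 1 / (n : ℝ)) :
    (GS n ξ m).Infinite := by
  have hn0 : (0 : ℝ) < n := by exact_mod_cast hn
  intro hfin
  obtain ⟨c, hc, hcP⟩ : ∃ c : ℝ, 0 < c ∧ ∀ q ∈ GS n ξ m, c ≤ |(q : ℝ) * ξ - round ((q : ℝ) * ξ)| := by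
    rcases hfin.toFinset.eq_empty_or_nonempty with h0 | h0
    · refine ⟨1, one_pos, fun q hq => ?_⟩
      have : q ∈ hfin.toFinset := hfin.mem_toFinset.2 hq
      rw [h0] at this; simp at this
    · obtain ⟨q0, h1, h2⟩ := hfin.toFinset.exists_min_image
        (fun q => |(q : ℝ) * ξ - round ((q : ℝ) * ξ)|) h0
      refine ⟨|(q0 : ℝ) * ξ - round ((q0 : ℝ) * ξ)|, ?_, fun q hq => h2 q (hfin.mem_toFinset.2 hq)⟩
      rw [abs_pos, sub_ne_zero]
      have hq0 : 0 < q0 := (hfin.mem_toFinset.1 h1).1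
      exact (hξ.natCast_mul hq0.ne').ne_int _
  obtain ⟨Q, hQ⟩ := exists_nat_gt (1 / c)
  have hc1 : 0 < 1 / c := by positivity
  have hQR : (0 : ℝ) < Q := hc1.trans hQ
  have hQ1 : 1 ≤ Q := by exact_mod_cast (by exact_mod_cast hQR : 0 < Q)
  have hQ1R : (1 : ℝ) ≤ Q := by exact_mod_cast hQ1
  obtain ⟨j, hj1, hj2, hj⟩ := dirichlet_simul n Q hQ1 (fun i => ξ ^ (i + 1))
  have hjR : (0 : ℝ) < j := by exact_mod_cast hj1
  have hjR1 : (1 : ℝ) ≤ j := by exact_mod_cast hj1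
  have hjn : 1 / (Q : ℝ) ≤ (j : ℝ) ^ (-m) := by
    have h1 : (j : ℝ) ^ (1 / (n : ℝ)) ≤ Q := by
      have h2 : (j : ℝ) ≤ (Q : ℝ) ^ (n : ℝ) := by
        rw [Real.rpow_natCast]
        exact_mod_cast hj2
      calc (j : ℝ) ^ (1 / (n : ℝ)) ≤ ((Q : ℝ) ^ (n : ℝ)) ^ (1 / (n : ℝ)) :=
            Real.rpow_le_rpow hjR.le h2 (by positivity)
        _ = Q := by
            rw [← Real.rpow_mul hQR.le, mul_one_div_cancel hn0.ne', Real.rpow_one]
    have h3 : (j : ℝ) ^ (-(1 / (n : ℝ))) ≤ (j : ℝ) ^ (-m) :=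
      Real.rpow_le_rpow_of_exponent_le hjR1 (by linarith)
    refine le_trans ?_ h3
    rw [Real.rpow_neg hjR.le, one_div]
    exact inv_anti₀ (Real.rpow_pos_of_pos hjR _) h1
  choose! k hk using hj
  have hmem : j ∈ GS n ξ m := by
    refine ⟨by omega, ?_⟩
    intro i hi
    rw [Finset.mem_Icc] at hi
    have h1 := hk (i - 1) (by omega)
    rw [show i - 1 + 1 = i by omega] at h1
    exact (round_le _ _).trans (h1.trans hjn)
  have h1 := hcP j hmem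
  have h2 := hk 0 (by omega)
  rw [zero_add, pow_one] at h2
  have h3 := round_le ((j : ℝ) * ξ) (k 0)
  have h4 : c ≤ 1 / Q := h1.trans (h3.trans h2)
  rw [div_lt_iff₀ hc] at hQ
  rw [le_div_iff₀ hQR] at h4
  linarith

theorem small_ev (c δ : ℝ) (hδ : 0 < δ) : ∀ᶠ q : ℝ in atTop, c * q ^ (-δ) < 1 := by
  have h1 : Tendsto (fun q : ℝ => c * q ^ (-δ)) atTop (nhds (c * 0)) :=
    (tendsto_rpow_neg_atTop hδ).const_mul c
  rw [mul_zero] at h1
  exact h1.eventually (gt_mem_nhds one_pos)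

theorem main (n s : ℕ) (hn : 1 ≤ n) (hs : 1 ≤ s) (ξ : ℝ) (hξ : ∀ a : ℤ, ξ - a ≠ 0) (l μ : ℝ)
    (hinf : (GS n ξ l).Infinite) (hμ : 1 / ((n + s : ℕ) : ℝ) ≤ μ)
    (hμl : μ < ((n : ℝ) * l - s) / ((n + s : ℕ) : ℝ)) : (GS (n + s) ξ μ).Infinite := by
  classical
  have hn0 : (0 : ℝ) < n := by exact_mod_cast hn
  have hs1 : (1 : ℝ) ≤ s := by exact_mod_cast hs
  have hm0 : (0 : ℝ) < ((n + s : ℕ) : ℝ) := by positivity
  have hm : ((n + s : ℕ) : ℝ) = n + s := by push_cast; ring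
  have hμ0 : 0 < μ := lt_of_lt_of_le (by positivity) hμ
  have hl1 : (s : ℝ) + 1 < n * l := by
    have h1 := lt_of_le_of_lt hμ hμl
    rw [div_lt_div_iff_of_pos_right hm0] at h1
    linarith
  have hl2 : 2 / (n : ℝ) < l := by
    rw [div_lt_iff₀ hn0]
    linarith
  have hl0 : 0 < l := lt_trans (by positivity) hl2
  obtain ⟨K, hK1, hK⟩ := choose_a n
  choose Cf hCf1 hCf using fun a : Fin (n + 1) => core n s hn ξ ((a : ℕ) : ℤ) (hξ _) K hK1
  set C : ℝ := ∑ a, Cf a with hC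
  have hCle : ∀ a, Cf a ≤ C := fun a =>
    Finset.single_le_sum (f := Cf) (fun a _ => zero_le_one.trans (hCf1 a)) (mem_univ a)
  have hC1 : 1 ≤ C := (hCf1 0).trans (hCle 0)
  -- eventual conditions
  set A : ℝ := (1 + |ξ|) ^ n with hA
  have hA0 : 0 ≤ |ξ| := abs_nonneg ξ
  have hA1 : 1 ≤ A := one_le_pow₀ (by linarith)
  have ev1 : ∀ᶠ q : ℝ in atTop, C ≤ q := eventually_ge_atTop C
  have ev2 : ∀ᶠ q : ℝ in atTop, ∀ k : ℕ, n = 2 * k → ((k + 1).factorial : ℝ) *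
      ((q * (1 + |ξ|) ^ n + q ^ (-l)) * ((1 + |ξ|) * q ^ (-l)) ^ k) < 1 := by
    by_cases hev : ∃ k : ℕ, n = 2 * k
    · obtain ⟨k, hk⟩ := hev
      have hk' : (n : ℝ) = 2 * k := by exact_mod_cast hk
      have hlk : 0 < l * k - 1 := by
        rw [hk'] at hl1
        nlinarith
      filter_upwards [small_ev (((k + 1).factorial : ℝ) * ((A + 1) * (1 + |ξ|) ^ k)) (l * k - 1) hlk,
        eventually_ge_atTop 1] with q hq hq1 k' hk2
      have hkk : k' = k := by omega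
      subst hkk
      have hq0 : 0 < q := by linarith
      have h1 : q ^ (-l) ≤ q := by
        calc q ^ (-l) ≤ q ^ (1 : ℝ) := Real.rpow_le_rpow_of_exponent_le hq1 (by linarith)
          _ = q := Real.rpow_one q
      refine lt_of_le_of_lt ?_ hq
      calc ((k' + 1).factorial : ℝ) * ((q * (1 + |ξ|) ^ n + q ^ (-l)) * ((1 + |ξ|) * q ^ (-l)) ^ k')
          ≤ ((k' + 1).factorial : ℝ) * (((A + 1) * q) * ((1 + |ξ|) * q ^ (-l)) ^ k') := by
            apply mul_le_mul_of_nonneg_left _ (by positivity)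
            apply mul_le_mul_of_nonneg_right _ (by positivity)
            rw [hA]
            linarith
        _ = ((k' + 1).factorial : ℝ) * ((A + 1) * (1 + |ξ|) ^ k') * (q * (q ^ (-l)) ^ k') := by
            rw [mul_pow]
            ring
        _ = ((k' + 1).factorial : ℝ) * ((A + 1) * (1 + |ξ|) ^ k') * q ^ (-(l * k' - 1)) := by
            congr 1
            rw [← Real.rpow_mul_natCast hq0.le]
            nth_rewrite 1 [← Real.rpow_one q]
            rw [← Real.rpow_add hq0]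
            congr 1
            ring
    · filter_upwards with q k hk
      exact absurd ⟨k, hk⟩ hev
  set δ : ℝ := l - (s : ℝ) / n - μ * (1 + (s : ℝ) / n) with hδ
  have hδ0 : 0 < δ := by
    rw [hδ]
    rw [lt_div_iff₀ hm0, hm] at hμl
    have h1 : μ * (1 + (s : ℝ) / n) = μ * (n + s) / n := by
      field_simp
    rw [h1]
    have h2 : μ * (n + s) / n < (n * l - s) / n := div_lt_div_of_pos_right hμl hn0
    have h3 : (n * l - s) / n = l - (s : ℝ) / n := by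
      field_simp
    linarith
  have ev3 := small_ev (C * C ^ μ) δ hδ0
  obtain ⟨Q0, hQ0⟩ := eventually_atTop.mp ((ev1.and ev2).and (ev3.and (eventually_ge_atTop 1)))
  apply Set.infinite_of_forall_exists_gt
  intro M
  obtain ⟨q, hqS, hqM⟩ := hinf.exists_gt (⌈Q0⌉₊ + ⌈C * (M + 1)⌉₊)
  have hqM' : ((⌈Q0⌉₊ : ℝ) + ⌈C * (M + 1)⌉₊) < q := by exact_mod_cast hqM
  have hqQ0 : Q0 ≤ q := by
    have h1 := Nat.le_ceil Q0
    have h2 : (0 : ℝ) ≤ ⌈C * ((M : ℝ) + 1)⌉₊ := Nat.cast_nonneg _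
    linarith
  have hqC : C * (M + 1) ≤ q := by
    have h1 := Nat.le_ceil (C * ((M : ℝ) + 1))
    have h2 : (0 : ℝ) ≤ ⌈Q0⌉₊ := Nat.cast_nonneg _
    linarith
  obtain ⟨⟨hCq, hsmall⟩, hlast, hq1⟩ := hQ0 q hqQ0
  obtain ⟨hqpos, hqS⟩ := hqS
  have hq0 : (0 : ℝ) < q := by linarith
  set e : ℝ := (q : ℝ) ^ (-l) with he
  have he0 : 0 < e := Real.rpow_pos_of_pos hq0 _
  have he1 : e ≤ 1 := Real.rpow_le_one_of_one_le_of_nonpos hq1 (by linarith)
  have heq : e ≤ (q : ℝ) ^ (-(2 / (n : ℝ))) :=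
    Real.rpow_le_rpow_of_exponent_le hq1 (by linarith)
  set x : ℕ → ℤ := fun j => round ((q : ℝ) * ξ ^ j) with hx
  have hxe : ∀ i, i ≤ n → |(x i : ℝ) - q * ξ ^ i| ≤ e := by
    intro i hi
    rw [abs_sub_comm]
    rcases Nat.eq_zero_or_pos i with h | h
    · subst h
      rw [hx]
      simp only [pow_zero, mul_one, round_natCast, Int.cast_natCast, sub_self, abs_zero]
      exact he0.le
    · exact hqS i (Finset.mem_Icc.mpr ⟨h, hi⟩)
  have hx0 : x 0 ≠ 0 := by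
    rw [hx]
    simp only [pow_zero, mul_one, round_natCast]
    exact_mod_cast hqpos.ne'
  obtain ⟨r, P, hr1, hrn, hP0, hPd, hPA, hPmin⟩ := exists_min n hn x hx0
    (exists_an n ξ x q e hq0.le hxe hsmall)
  obtain ⟨a, han, ha0, haK⟩ := hK P hP0 (by omega)
  obtain ⟨u, z, hu1, hu2, hu3⟩ := hCf ⟨a, by omega⟩ q e x r (P.comp (X + Polynomial.C (a : ℤ))) hq1
    ((hCle _).trans hCq) he0 he1 heq hxe hr1 hrn
    (by rw [natDegree_comp, natDegree_X_add_C, mul_one]; exact hPd) ha0 (An_sh _ hPA) haK (by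
      intro Q hQd hQ
      have h1 : ∀ t, t + r ≤ n + 1 → Fl x (Q.comp (X - Polynomial.C (a : ℤ)) * X ^ t) = 0 := by
        intro t ht
        have h2 : An (sh (a : ℤ) x) (n + 1) r Q := hQ
        exact An_of_sh (a : ℤ) h2 t ht
      have h3 := hPmin (Q.comp (X - Polynomial.C (a : ℤ))) (by
        rcases eq_or_ne Q 0 with h | h
        · rw [h, zero_comp, degree_zero]
          exact WithBot.bot_lt_coe r
        · have h4 : Q.comp (X - Polynomial.C (a : ℤ)) ≠ 0 := by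
            intro h5
            apply h
            have h6 : Q = (Q.comp (X - Polynomial.C (a : ℤ))).comp (X + Polynomial.C (a : ℤ)) := by
              rw [comp_assoc]
              simp
            rw [h6, h5, zero_comp]
          rw [degree_eq_natDegree h4, natDegree_comp, natDegree_X_sub_C, mul_one,
            ← degree_eq_natDegree h]
          exact hQd) h1
      have h6 : Q = (Q.comp (X - Polynomial.C (a : ℤ))).comp (X + Polynomial.C (a : ℤ)) := by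
        rw [comp_assoc]
        simp
      rw [h6, h3, zero_comp])
  have hCa := hCle ⟨a, by omega⟩
  have hqs0 : 0 < (q : ℝ) ^ ((s : ℝ) / n) := Real.rpow_pos_of_pos hq0 _
  have hu1' : (q : ℝ) ≤ C * u := hu1.trans (mul_le_mul_of_nonneg_right hCa (Nat.cast_nonneg _))
  have hu2' : (u : ℝ) ≤ C * ((q : ℝ) ^ ((s : ℝ) / n) * q) :=
    hu2.trans (mul_le_mul_of_nonneg_right hCa (by positivity))
  have huM : M < u := by
    have h1 : C * (M + 1) ≤ C * u := hqC.trans hu1'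
    have h2 : (M : ℝ) + 1 ≤ u := le_of_mul_le_mul_left h1 (by linarith)
    have h3 : M + 1 ≤ u := by exact_mod_cast h2
    omega
  refine ⟨u, ⟨by omega, ?_⟩, huM⟩
  intro j hj
  rw [Finset.mem_Icc] at hj
  have hu0 : (0 : ℝ) < u := by
    have : 0 < u := by omega
    exact_mod_cast this
  refine (round_le _ (z j)).trans ?_
  have h1 : |(u : ℝ) * ξ ^ j - z j| ≤ C * ((q : ℝ) ^ ((s : ℝ) / n) * e) :=
    (hu3 j hj.2).trans (mul_le_mul_of_nonneg_right hCa (by positivity))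
  refine h1.trans ?_
  have h2 : (C * ((q : ℝ) ^ ((s : ℝ) / n) * q)) ^ (-μ) ≤ (u : ℝ) ^ (-μ) :=
    Real.rpow_le_rpow_of_nonpos hu0 hu2' (by linarith)
  refine le_trans ?_ h2
  have hqq : (q : ℝ) ^ ((s : ℝ) / n) * q = (q : ℝ) ^ ((s : ℝ) / n + 1) := by
    rw [Real.rpow_add hq0, Real.rpow_one]
  rw [Real.rpow_neg (by positivity), hqq, Real.mul_rpow (by linarith) (by positivity),
    ← Real.rpow_mul hq0.le, le_inv_comm₀ (by positivity) (by positivity)]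
  rw [← one_div, le_div_iff₀ (by positivity)]
  have h3 : C ^ μ * (q : ℝ) ^ (((s : ℝ) / n + 1) * μ) * (C * ((q : ℝ) ^ ((s : ℝ) / n) * e)) =
      C * C ^ μ * (q : ℝ) ^ (-δ) := by
    rw [he]
    have h4 : (q : ℝ) ^ (((s : ℝ) / n + 1) * μ) * ((q : ℝ) ^ ((s : ℝ) / n) * (q : ℝ) ^ (-l)) =
        (q : ℝ) ^ (-δ) := by
      rw [← Real.rpow_add hq0, ← Real.rpow_add hq0]
      congr 1
      rw [hδ]
      ring
    calc _ = C * C ^ μ * ((q : ℝ) ^ (((s : ℝ) / n + 1) * μ) *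
          ((q : ℝ) ^ ((s : ℝ) / n) * (q : ℝ) ^ (-l))) := by ring
      _ = _ := by rw [h4]
  rw [h3]
  exact hlast.le

end Pool.Agent.R330.Lam
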